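import Pool.Agent.helper968_kim.Sat

set_option autoImplicit false

/-!
Tuples with the same type, elimination of infinitely many existential quantifiers, saturation of
ultrapowers for types in countably many variables over countably many parameters.
-/

namespace Pool.Agent.Hp8VC

open FirstOrder FirstOrder.Language Filter H968

variable {L : FirstOrder.Language.{0, 0}}

/-- The tuples `a` and `b` have the same type. -/
def SameT {M N : Type} [L.Structure M] [L.Structure N] {ι : Type} (a : ι → M) (b : ι → N) : Prop :=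
  ∀ φ : L.Formula ι, φ.Realize a ↔ φ.Realize b

section
variable {M N K : Type} [L.Structure M] [L.Structure N] [L.Structure K] {ι κ : Type}

theorem SameT.refl (a : ι → M) : SameT (L := L) a a := fun _ => Iff.rfl

theorem SameT.symm {a : ι → M} {b : ι → N} (h : SameT (L := L) a b) : SameT (L := L) b a :=
  fun φ => (h φ).symm

theorem SameT.trans {a : ι → M} {b : ι → N} {c : ι → K} (h : SameT (L := L) a b)
    (h' : SameT (L := L) b c) : SameT (L := L) a c := fun φ => (h φ).trans (h' φ)

theorem SameT.comp {a : ι → M} {b : ι → N} (h : SameT (L := L) a b) (g : κ → ι) :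
    SameT (L := L) (a ∘ g) (b ∘ g) := by
  intro φ
  rw [← Formula.realize_relabel, ← Formula.realize_relabel]
  exact h _

theorem SameT.of_eq {a : ι → M} {b : ι → N} (h : SameT (L := L) a b) {a' : κ → M} {b' : κ → N}
    (g : κ → ι) (ha : a' = a ∘ g) (hb : b' = b ∘ g) : SameT (L := L) a' b' := by
  subst ha hb
  exact h.comp g

theorem SameT.eq_iff {a : ι → M} {b : ι → N} (h : SameT (L := L) a b) (i j : ι) :
    a i = a j ↔ b i = b j := by
  have := h (Term.equal (Term.var i) (Term.var j))
  simpa [Formula.realize_equal] using this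

end

/-- Existential quantification over arbitrarily many variables. -/
theorem exq {ι κ : Type} (φ : L.Formula (ι ⊕ κ)) :
    ∃ ψ : L.Formula ι, ∀ (M : Type) [L.Structure M] [Nonempty M] (v : ι → M),
      ψ.Realize v ↔ ∃ w : κ → M, φ.Realize (Sum.elim v w) := by
  classical
  let κ' : Type := {k : κ // Sum.inr k ∈ φ.freeVarFinset}
  have hfin : Finite κ' := by
    have : Function.Injective (fun k : κ' => (⟨Sum.inr k.1, k.2⟩ : φ.freeVarFinset)) := by
      intro k l h
      exact Subtype.ext (by simpa [Subtype.ext_iff] using h)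
    exact Finite.of_injective _ this
  let f : φ.freeVarFinset → ι ⊕ κ' := fun x => match x with
    | ⟨Sum.inl i, _⟩ => Sum.inl i
    | ⟨Sum.inr k, h⟩ => Sum.inr ⟨k, h⟩
  let φ' : L.Formula (ι ⊕ κ') := φ.restrictFreeVar f
  refine ⟨φ'.iExs κ', fun M _ _ v => ?_⟩
  rw [Formula.realize_iExs]
  constructor
  · rintro ⟨w, hw⟩
    let w' : κ → M := fun k => if h : Sum.inr k ∈ φ.freeVarFinset then w ⟨k, h⟩ else
      Classical.arbitrary M
    refine ⟨w', ?_⟩
    refine (BoundedFormula.realize_restrictFreeVar (f := f) (v := Sum.elim v w)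
      (Sum.elim v w') ?_).1 hw
    rintro ⟨x | x, hx⟩
    · rfl
    · show w ⟨x, hx⟩ = w' x
      simp only [w', dif_pos hx]
  · rintro ⟨w, hw⟩
    refine ⟨fun k => w k.1, ?_⟩
    refine (BoundedFormula.realize_restrictFreeVar (f := f)
      (v := Sum.elim v fun k : κ' => w k.1) (Sum.elim v w) ?_).2 hw
    rintro ⟨x | x, hx⟩
    · rfl
    · rfl

/-- Finite conjunctions. -/
theorem conj {ι : Type} (s : Set (L.Formula ι)) (hs : s.Finite) :
    ∃ ψ : L.Formula ι, ∀ (M : Type) [L.Structure M] (v : ι → M),
      ψ.Realize v ↔ ∀ φ ∈ s, φ.Realize v := by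
  have : Finite s := hs
  refine ⟨Formula.iInf (fun φ : s => φ.1), fun M _ v => ?_⟩
  rw [Formula.realize_iInf]
  exact ⟨fun h φ hφ => h ⟨φ, hφ⟩, fun h φ => h φ.1 φ.2⟩

/-- Saturation for types in countably many variables over countably many parameters. -/
def Satd (L : FirstOrder.Language.{0, 0}) (U : Type) [L.Structure U] : Prop :=
  ∀ (ι κ : Type) [Countable ι] [Countable κ] (a : ι → U) (p : Set (L.Formula (ι ⊕ κ))),
    (∀ s ⊆ p, s.Finite → ∃ b : κ → U, ∀ φ ∈ s, φ.Realize (Sum.elim a b)) →
    ∃ b : κ → U, ∀ φ ∈ p, φ.Realize (Sum.elim a b)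

theorem countable_formula [Countable L.Symbols] (ι : Type) [Countable ι] :
    Countable (L.Formula ι) := by
  have h1 : Cardinal.mk (Σ n, L.BoundedFormula ι n) ≤ Cardinal.aleph0 := by
    refine FirstOrder.Language.BoundedFormula.card_le.trans ?_
    have hL : L.card ≤ Cardinal.aleph0 := Cardinal.mk_le_aleph0_iff.2 inferInstance
    have hi : Cardinal.mk ι ≤ Cardinal.aleph0 := Cardinal.mk_le_aleph0_iff.2 inferInstance
    refine max_le le_rfl ?_
    simp only [Cardinal.lift_id]
    exact (add_le_add hi hL).trans (by simp)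
  have h2 : Countable (Σ n, L.BoundedFormula ι n) := Cardinal.mk_le_aleph0_iff.1 h1
  exact Function.Injective.countable
    (f := fun σ : L.Formula ι => (⟨0, σ⟩ : Σ n, L.BoundedFormula ι n)) (by
      intro σ σ' h
      simpa using h)

theorem realize_cls (N : Type) [L.Structure N] [Nonempty N] {ι : Type} (φ : L.Formula ι)
    (r : ι → ℕ → N) : (φ.Realize fun i => (cls (r i) : Ult N)) ↔
      ∀ᶠ k in (hyp : Filter ℕ), φ.Realize fun i => r i k :=
  FirstOrder.Language.Ultraproduct.realize_formula_cast (u := hyp) (M := fun _ : ℕ => N) φ r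

theorem satd_ult [Countable L.Symbols] (N : Type) [L.Structure N] [Nonempty N] :
    Satd L (Ult N) := by
  intro ι κ _ _ a p hfin
  have hc := countable_formula (L := L) (ι ⊕ κ)
  have hpc : p.Countable := Set.to_countable p
  rcases p.eq_empty_or_nonempty with h0 | h0
  · refine ⟨fun _ => cls fun _ => Classical.arbitrary N, fun ψ hψ => ?_⟩
    rw [h0] at hψ
    exact hψ.elim
  obtain ⟨f, hf⟩ := hpc.exists_eq_range h0
  choose r hr using fun i => cls_surj_sat (a i)
  obtain ⟨w, hw⟩ := diag_choice (W := κ → N)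
    (fun j k w => (f j).Realize (Sum.elim (fun i => r i k) w)) (by
      intro k
      obtain ⟨b, hb⟩ := hfin (f '' Set.Iic k) (by
        rintro _ ⟨j, _, rfl⟩
        rw [hf]
        exact ⟨j, rfl⟩) ((Set.finite_Iic k).image f)
      choose b' hb' using fun t => cls_surj_sat (b t)
      have h1 : ∀ j ∈ Set.Iic k, ∀ᶠ i in (hyp : Filter ℕ),
          (f j).Realize (Sum.elim (fun t => r t i) fun t => b' t i) := by
        intro j hj
        have h2 := hb _ ⟨j, hj, rfl⟩
        have e : Sum.elim a b = fun x => (cls (Sum.elim r b' x) : Ult N) := by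
          funext x
          rcases x with x | x
          · exact (hr x).symm
          · exact (hb' x).symm
        rw [e, realize_cls] at h2
        refine h2.mono fun i hi => ?_
        have e2 : (Sum.elim (fun t => r t i) fun t => b' t i) = fun x => Sum.elim r b' x i := by
          funext x
          rcases x with x | x <;> rfl
        rw [e2]
        exact hi
      have h2 := (eventually_all_finite (Set.finite_Iic k)).mpr h1
      filter_upwards [h2] with i hi
      exact ⟨fun t => b' t i, fun j hj => hi j hj⟩)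
  refine ⟨fun t => cls fun i => w i t, fun ψ hψ => ?_⟩
  rw [hf] at hψ
  obtain ⟨k, rfl⟩ := hψ
  have e : Sum.elim a (fun t => (cls fun i => w i t : Ult N)) =
      fun x => (cls (Sum.elim r (fun t i => w i t) x) : Ult N) := by
    funext x
    rcases x with x | x
    · exact (hr x).symm
    · rfl
  rw [e, realize_cls]
  refine (hw k).mono fun i hi => ?_
  have e2 : (Sum.elim (fun t => r t i) (w i)) = fun x => Sum.elim r (fun t i => w i t) x i := by
    funext x
    rcases x with x | x <;> rfl
  rw [← e2]
  exact hi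

/-- The diagonal embedding. -/
theorem sameT_diag (N : Type) [L.Structure N] [Nonempty N] {ι : Type} (a : ι → N) :
    SameT (L := L) a (fun i => (cls fun _ => a i : Ult N)) := by
  intro φ
  rw [realize_cls]
  simp

/-- Extension of tuples. -/
theorem ext_tuple {U : Type} [L.Structure U] [Nonempty U] (hU : Satd L U) {M : Type}
    [L.Structure M] [Nonempty M] {ι κ : Type} [Countable ι] [Countable κ] {a : ι → M} {a' : ι → U}
    (h : SameT (L := L) a a') (b : κ → M) :
    ∃ b' : κ → U, SameT (L := L) (Sum.elim a b) (Sum.elim a' b') := by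
  obtain ⟨b', hb'⟩ := hU ι κ a' {φ | φ.Realize (Sum.elim a b)} (by
    intro s hs hfin
    obtain ⟨χ, hχ⟩ := conj s hfin
    obtain ⟨ψ, hψ⟩ := exq χ
    have h1 : ψ.Realize a := (hψ M a).2 ⟨b, (hχ M _).2 fun φ hφ => hs hφ⟩
    obtain ⟨w, hw⟩ := (hψ U a').1 ((h ψ).1 h1)
    exact ⟨w, fun φ hφ => (hχ U _).1 hw φ hφ⟩)
  refine ⟨b', fun φ => ⟨fun h => hb' φ h, fun h => ?_⟩⟩
  by_contra hn
  exact (Formula.realize_not.1 (hb' φ.not (Formula.realize_not.2 hn))) h

end Pool.Agent.Hp8VC
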