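import Pool.Agent.Hp8VC.Join
import Pool.Agent.H623R2.VE.Mult

set_option autoImplicit false

/-!
The dichotomy for a complete theory whose bounded parts fall into countably many isomorphism types.
-/

namespace Pool.Agent.Hp8VC

open FirstOrder FirstOrder.Language Set
open Pool.Agent.H623R2.VE (Interp ar Conn Adj CIso CEq GIso Code toI ofI toI_ofI pull pull_ciso
  Perf CovE Pw measurableSet_rel strOf interpOf)

variable {L : FirstOrder.Language.{0, 0}}

/-- The carrier of a structure. -/
def MT {M : Type} (_S : L.Structure M) : Type := M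

instance {M : Type} (S : L.Structure M) : L.Structure (MT S) := S

instance {M : Type} [Nonempty M] (S : L.Structure M) : Nonempty (MT S) :=
  inferInstanceAs (Nonempty M)

instance {M : Type} [Countable M] (S : L.Structure M) : Countable (MT S) :=
  inferInstanceAs (Countable M)

/-- The interpretation of a structure. -/
def ip (M : Type) [L.Structure M] : Interp (ar L) M := fun i t => Structure.RelMap i.2 t

/-- The bounded part. -/
abbrev BP (L : FirstOrder.Language.{0, 0}) (M : Type) [L.Structure M] : Type :=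
  {x : M // Base L (default : Fin 0 → M) x}

instance instBP [L.IsRelational] (M : Type) [L.Structure M] : L.Structure (BP L M) where
  funMap f := isEmptyElim f
  RelMap R t := Structure.RelMap R fun k => (t k).1

/-- Isomorphic bounded parts. -/
def BIso (L : FirstOrder.Language.{0, 0}) (M N : Type) [L.Structure M] [L.Structure N] : Prop :=
  ∃ g : BP L M ≃ BP L N, ∀ {n : ℕ} (R : L.Relations n) (t : Fin n → BP L M),
    Structure.RelMap R (fun k => (t k).1) ↔ Structure.RelMap R fun k => (g (t k)).1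

section
variable {M N : Type} [L.Structure M] [L.Structure N]

theorem ec_of_adj {x y : M} (h : Adj (ip (L := L) M) x y) : Ec L (default : Fin 0 → M) x y := by
  obtain ⟨i, t, h1, ⟨k, rfl⟩, ⟨l, rfl⟩⟩ := h
  exact ec_of_rel i.2 t h1 k l

theorem base_ceq (g : BP L M ≃ BP L N) (hg : ∀ {n : ℕ} (R : L.Relations n) (t : Fin n → BP L M),
    Structure.RelMap R (fun k => (t k).1) ↔ Structure.RelMap R fun k => (g (t k)).1)
    (x : BP L M) : CEq (ip (L := L) M) x.1 (ip (L := L) N) (g x).1 := by
  have h1 : CIso (pull (ip (L := L) M) (Subtype.val : BP L M → M)) (ip M) Subtype.val x :=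
    pull_ciso _ _ Subtype.val_injective (fun u y h =>
      ⟨⟨y, u.2.of_ec (ec_of_adj h)⟩, rfl⟩) x
  have h2 : CIso (pull (ip (L := L) N) (Subtype.val : BP L N → N)) (ip N) Subtype.val (g x) :=
    pull_ciso _ _ Subtype.val_injective (fun u y h =>
      ⟨⟨y, u.2.of_ec (ec_of_adj h)⟩, rfl⟩) (g x)
  have h3 : CIso (pull (ip (L := L) M) (Subtype.val : BP L M → M))
      (pull (ip (L := L) N) (Subtype.val : BP L N → N)) g x :=
    GIso.ciso g (fun i t => hg i.2 t) x
  exact (CEq.of_ciso h1).symm.trans ((CEq.of_ciso h3).trans (CEq.of_ciso h2))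

theorem nonbase_ceq (x : {z : M // ¬ Base L (default : Fin 0 → M) z}) :
    CEq (ip (L := L) M) x.1 (Om (L := L) M) (0, x) := by
  have h1 : CIso (pull (ip (L := L) M) (Subtype.val :
      {z : M // ¬ Base L (default : Fin 0 → M) z} → M)) (ip M) Subtype.val x :=
    pull_ciso _ _ Subtype.val_injective
      (fun (u : {z : M // ¬ Base L (default : Fin 0 → M) z}) y h =>
      ⟨⟨y, fun hy => u.2 (hy.of_ec (ec_of_adj h).symm)⟩, rfl⟩) x
  have h2 : CIso (pull (Om (L := L) M) (Prod.mk 0)) (Om (L := L) M) (Prod.mk 0) x :=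
    pull_ciso _ _ (Prod.mk_right_injective 0) (fun u y h => by
      obtain ⟨i, t, ⟨h1, _⟩, ⟨k, hk⟩, ⟨l, hl⟩⟩ := h
      refine ⟨y.2, Prod.ext ?_ rfl⟩
      have := h1 k l
      rw [hk, hl] at this
      exact this) x
  have h3 : pull (Om (L := L) M) (Prod.mk 0) =
      pull (ip (L := L) M) (Subtype.val : {z : M // ¬ Base L (default : Fin 0 → M) z} → M) := by
    funext i t
    exact propext ⟨fun h => h.2, fun h => ⟨fun _ _ => rfl, h⟩⟩
  rw [h3] at h2
  exact (CEq.of_ciso h1).symm.trans (CEq.of_ciso h2)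

end

section
variable [L.IsRelational] {B : Type} [L.Structure B]

/-! ### Measurability -/

theorem meas_JT [Countable B] {α : Type} {n : ℕ} (φ : L.BoundedFormula α n) :
    ∀ (v : α → B ⊕ ℕ) (xs : Fin n → B ⊕ ℕ), MeasurableSet {c : Code (ar L) |
      @BoundedFormula.Realize L (JT B (toI c)) _ α n φ v xs} := by
  have hterm : ∀ {β : Type} (t : L.Term β), ∃ i, t = Term.var i := by
    intro β t
    cases t with
    | var i => exact ⟨i, rfl⟩
    | func f _ => exact isEmptyElim f
  induction φ with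
  | falsum => exact fun v xs => MeasurableSet.empty
  | @equal n t1 t2 =>
    intro v xs
    obtain ⟨i, rfl⟩ := hterm t1
    obtain ⟨j, rfl⟩ := hterm t2
    exact MeasurableSet.const (Sum.elim v xs i = Sum.elim v xs j)
  | @rel n l R ts =>
    intro v xs
    choose i hi using fun k => hterm (ts k)
    obtain rfl : ts = fun k => Term.var (i k) := funext hi
    have e : {c : Code (ar L) |
        @BoundedFormula.Realize L (JT B (toI c)) _ α n
          (BoundedFormula.rel R fun k => Term.var (i k)) v xs} =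
      {_c : Code (ar L) | 0 < l ∧ ∃ s : Fin l → B,
        ((fun k => Sum.elim v xs (i k)) = fun k => Sum.inl (s k)) ∧ Structure.RelMap R s} ∪
      ⋃ s : Fin l → ℕ, ({_c : Code (ar L) |
        ((fun k => Sum.elim v xs (i k)) = fun k => Sum.inr (s k))} ∩
          {c : Code (ar L) | toI c ⟨l, R⟩ s}) := by
      ext c
      constructor
      · rintro (h | ⟨s, h1, h2⟩)
        · exact Or.inl h
        · exact Or.inr (mem_iUnion.2 ⟨s, h1, h2⟩)
      · rintro (h | h)
        · exact Or.inl h
        · obtain ⟨s, h1, h2⟩ := mem_iUnion.1 h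
          exact Or.inr ⟨s, h1, h2⟩
    rw [e]
    exact (MeasurableSet.const _).union (MeasurableSet.iUnion fun s =>
      (MeasurableSet.const _).inter (measurableSet_rel (a := ar L) (⟨l, R⟩ : Σ n, L.Relations n) s))
  | @imp n f g ihf ihg =>
    intro v xs
    have e : {c : Code (ar L) |
        @BoundedFormula.Realize L (JT B (toI c)) _ α n (f.imp g) v xs} =
      {c : Code (ar L) | @BoundedFormula.Realize L (JT B (toI c)) _ α n f v xs}ᶜ ∪
      {c : Code (ar L) | @BoundedFormula.Realize L (JT B (toI c)) _ α n g v xs} := by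
      ext c
      exact imp_iff_not_or
    rw [e]
    exact (ihf v xs).compl.union (ihg v xs)
  | @all n f ih =>
    intro v xs
    have e : {c : Code (ar L) |
        @BoundedFormula.Realize L (JT B (toI c)) _ α n f.all v xs} =
      ⋂ b : B ⊕ ℕ, {c : Code (ar L) | @BoundedFormula.Realize L (JT B (toI c)) _ α (n + 1) f
        v (Fin.snoc (α := fun _ => B ⊕ ℕ) xs b)} := by
      ext c
      simp only [mem_iInter]
      exact Iff.rfl
    rw [e]
    exact MeasurableSet.iInter fun b => ih _ _

theorem meas_JTf [Countable B] {α : Type} (φ : L.Formula α) (v : α → B ⊕ ℕ) :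
    Measurable fun c : Code (ar L) => @Formula.Realize L (JT B (toI c)) _ α φ v := by
  refine measurableSet_setOfPred.1 ?_
  have e : {c : Code (ar L) | @Formula.Realize L (JT B (toI c)) _ α φ v} =
      {c : Code (ar L) | @BoundedFormula.Realize L (JT B (toI c)) _ α 0 φ v
        (fun i => i.elim0)} := by
    ext c
    have hd : (default : Fin 0 → JT B (toI c)) = fun i => i.elim0 := Subsingleton.elim _ _
    show @BoundedFormula.Realize L (JT B (toI c)) _ α 0 φ v default ↔ _
    rw [hd]
    exact Iff.rfl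
  rw [e]
  exact meas_JT φ v (fun i => i.elim0)

theorem meas_Gd [Countable L.Symbols] [Countable B] (U : Type) [L.Structure U] [Nonempty U] :
    MeasurableSet {c : Code (ar L) | Gd U B (toI c)} := by
  have hc0 := countable_formula (L := L) (Fin 0)
  have hc1 := countable_formula (L := L) (Fin 0 ⊕ Unit)
  have e : {c : Code (ar L) | Gd U B (toI c)} =
      (⋂ φ : L.Formula (Fin 0), {c : Code (ar L) |
        @Formula.Realize L (JT B (toI c)) _ (Fin 0) φ (fun i => i.elim0) ↔
          φ.Realize (default : Fin 0 → U)}) ∩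
      ⋂ x : B ⊕ ℕ, {c : Code (ar L) | (∃ φ : L.Formula (Fin 0 ⊕ Unit),
        Bd (default : Fin 0 → U) φ ∧ @Formula.Realize L (JT B (toI c)) _ (Fin 0 ⊕ Unit) φ
          (Sum.elim (fun i : Fin 0 => i.elim0) fun _ => x)) ↔ ∃ b : B, x = Sum.inl b} := by
    ext c
    have hd : (default : Fin 0 → JT B (toI c)) = fun i => i.elim0 := Subsingleton.elim _ _
    simp only [Gd, mem_inter_iff, mem_iInter, mem_ofPred_eq, hd]
    refine and_congr_right fun h => forall_congr' fun x => iff_congr ?_ Iff.rfl
    constructor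
    · rintro ⟨φ, h1, h2⟩
      exact ⟨φ, h2.transfer h, h1⟩
    · rintro ⟨φ, h1, h2⟩
      exact ⟨φ, h2, h1.transfer h.symm⟩
  rw [e]
  refine MeasurableSet.inter (MeasurableSet.iInter fun φ => ?_) (MeasurableSet.iInter fun x => ?_)
  · refine measurableSet_setOfPred.2 ?_
    exact (meas_JTf (B := B) φ (fun i : Fin 0 => i.elim0)).iff measurable_const
  · refine measurableSet_setOfPred.2 (Measurable.iff ?_ measurable_const)
    refine Measurable.exists fun φ => Measurable.and measurable_const ?_
    exact meas_JTf (B := B) φ (Sum.elim (fun i : Fin 0 => i.elim0) fun _ => x)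

/-! ### The class of the second parts -/

theorem giso_Om (Z : Interp (ar L) ℕ)
    (h : ∀ x : JT B Z, Base L (default : Fin 0 → JT B Z) x ↔ ∃ b : B, x = Sum.inl b) :
    GIso (Om (L := L) (JT B Z)) (Pw Z) := by
  have h1 : ∀ m : ℕ, ¬ Base L (default : Fin 0 → JT B Z) (Sum.inr m) := by
    intro m hm
    obtain ⟨b, hb⟩ := (h _).1 hm
    exact absurd hb (by simp)
  have h2 : ∀ x : {z : JT B Z // ¬ Base L (default : Fin 0 → JT B Z) z},
      ∃ m : ℕ, x.1 = Sum.inr m := by
    rintro ⟨x | x, hx⟩
    · exact (hx ((h _).2 ⟨x, rfl⟩)).elim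
    · exact ⟨x, rfl⟩
  choose m hm using h2
  let e : ℕ ≃ {z : JT B Z // ¬ Base L (default : Fin 0 → JT B Z) z} :=
    { toFun := fun k => ⟨Sum.inr k, h1 k⟩
      invFun := m
      left_inv := fun k => by
        have := hm ⟨Sum.inr k, h1 k⟩
        exact (Sum.inr.inj this).symm
      right_inv := fun x => Subtype.ext (hm x).symm }
  refine ⟨((Equiv.refl ℕ).prodCongr e.symm).trans Nat.pairEquiv, fun i t => ?_⟩
  show (_ ∧ _) ↔ (_ ∧ _)
  have e1 : ∀ k, Nat.unpair ((((Equiv.refl ℕ).prodCongr e.symm).trans Nat.pairEquiv) (t k)) =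
      ((t k).1, e.symm (t k).2) := by
    intro k
    simp [Nat.pairEquiv_apply, Function.uncurry]
  simp only [e1]
  refine and_congr Iff.rfl ?_
  have e2 : (fun k => ((t k).2.1 : JT B Z)) = fun k => Sum.inr (e.symm (t k).2) := by
    funext k
    exact (congrArg Subtype.val (e.apply_symm_apply (t k).2)).symm
  rw [e2]
  refine (JT.rel Z i.2 _).trans ?_
  constructor
  · rintro (⟨h3, s, h4, _⟩ | ⟨s, h4, h5⟩)
    · exact absurd (congrFun h4 ⟨0, h3⟩) (by simp)
    · have h6 : (fun k => e.symm (t k).2) = s := by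
        funext k
        exact Sum.inr.inj (congrFun h4 k)
      rw [h6]
      exact h5
  · intro h3
    exact Or.inr ⟨_, rfl, h3⟩

/-- The class of the second parts has countably many types of components, or a perfect set. -/
theorem second_parts [Countable L.Symbols] [Countable B] (U : Type) [L.Structure U] [Nonempty U]
    (hU : Satd L U) (hP : ¬ Perf CovE {c : Code (ar L) | Gd U B (toI c)}) :
    ∃ f : ℕ → Code (ar L) × ℕ, ∀ c : Code (ar L), Gd U B (toI c) → ∀ b,
      ∃ n, CEq (toI c) b (toI (f n).1) (f n).2 := by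
  have hcR : Countable (Σ n, L.Relations n) :=
    Function.Injective.countable (f := (Sum.inr : (Σ n, L.Relations n) → L.Symbols))
      Sum.inr_injective
  refine Pool.Agent.H623R2.VE.core (meas_Gd U) (fun c c' h hc => Gd.iso h hc) (fun c hc => ?_) hP
  show Gd U B (toI (ofI (Pw (toI c))))
  rw [toI_ofI]
  let h : B ≃ {x : JT B (toI c) // Base L (default : Fin 0 → JT B (toI c)) x} :=
    Equiv.ofBijective (fun b => ⟨Sum.inl b, (hc.2 _).2 ⟨b, rfl⟩⟩) ⟨fun b b' hb =>
      Sum.inl.inj (congrArg Subtype.val hb), fun x => by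
        obtain ⟨b, hb⟩ := (hc.2 x.1).1 x.2
        exact ⟨b, Subtype.ext hb.symm⟩⟩
  have h1 : Gd U B (Om (L := L) (JT B (toI c))) := by
    refine gd_Om hU hc.1 hc.1 h ?_
    intro n R t hn
    refine Iff.trans ?_ (JT.rel (toI c) R fun k => (h (t k)).1).symm
    constructor
    · intro h2
      exact Or.inl ⟨hn, t, rfl, h2⟩
    · rintro (⟨_, s, h2, h3⟩ | ⟨s, h2, _⟩)
      · have h4 : t = s := funext fun k => Sum.inl.inj (congrFun h2 k)
        rw [h4]
        exact h3
      · have h5 : (Sum.inl (t ⟨0, hn⟩) : B ⊕ ℕ) = Sum.inr (s ⟨0, hn⟩) := congrFun h2 ⟨0, hn⟩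
        exact absurd h5 (by simp)
  exact Gd.iso (giso_Om (toI c) hc.2) h1

theorem JT.rel_inr {A : Type} (Z : Interp (ar L) A) {n : ℕ} (R : L.Relations n) (s : Fin n → A) :
    Structure.RelMap (M := JT B Z) R (fun k => Sum.inr (s k)) ↔ Z ⟨n, R⟩ s := by
  refine (JT.rel Z R _).trans ?_
  constructor
  · rintro (⟨h3, s', h4, _⟩ | ⟨s', h4, h5⟩)
    · have h5 : (Sum.inr (s ⟨0, h3⟩) : B ⊕ A) = Sum.inl (s' ⟨0, h3⟩) := congrFun h4 ⟨0, h3⟩
      exact absurd h5 (by simp)
    · have h6 : s = s' := by
        funext k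
        exact Sum.inr.inj (congrFun h4 k)
      rw [h6]
      exact h5
  · intro h3
    exact Or.inr ⟨_, rfl, h3⟩

theorem gd_giso {U : Type} [L.Structure U] {Z Z' : Interp (ar L) ℕ} (hZ : Gd U B Z)
    (hZ' : Gd U B Z') (h : GIso (ip (L := L) (JT B Z)) (ip (L := L) (JT B Z'))) : GIso Z Z' := by
  obtain ⟨g, hg⟩ := h
  have h1 : SameT (L := L) (id : JT B Z → JT B Z) g := SameT.of_iso g fun R t => hg ⟨_, R⟩ t
  have hb : ∀ x, Base L (default : Fin 0 → JT B Z) x ↔ Base L (default : Fin 0 → JT B Z') (g x) :=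
    fun x => (sameT_default h1).base x
  have h2 : ∀ m : ℕ, ∃ m' : ℕ, g (Sum.inr m) = (Sum.inr m' : B ⊕ ℕ) := by
    intro m
    rcases hm : (g (Sum.inr m) : B ⊕ ℕ) with b | m'
    · exfalso
      have h3 := (hb (Sum.inr m)).2 ((hZ'.2 _).2 ⟨b, hm⟩)
      obtain ⟨b', hb'⟩ := (hZ.2 _).1 h3
      exact absurd hb' (by simp)
    · exact ⟨m', rfl⟩
  choose φ hφ using h2
  have hinj : Function.Injective φ := by
    intro m m' h
    have h3 : g (Sum.inr m) = g (Sum.inr m') := by rw [hφ, hφ, h]
    exact Sum.inr.inj (g.injective h3)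
  have hsurj : Function.Surjective φ := by
    intro m'
    obtain ⟨x, hx⟩ := g.surjective (Sum.inr m' : B ⊕ ℕ)
    rcases x with b | m
    · exfalso
      have h3 := (hb (Sum.inl b)).1 ((hZ.2 _).2 ⟨b, rfl⟩)
      rw [hx] at h3
      obtain ⟨b', hb'⟩ := (hZ'.2 _).1 h3
      exact absurd hb' (by simp)
    · exact ⟨m, Sum.inr.inj ((hφ m).symm.trans hx)⟩
  refine ⟨Equiv.ofBijective φ ⟨hinj, hsurj⟩, fun i t => ?_⟩
  refine (JT.rel_inr (B := B) Z i.2 t).symm.trans ((hg i _).trans ?_)
  have e : (fun k => g ((Sum.inr (t k) : B ⊕ ℕ) : JT B Z)) =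
      fun k => ((Sum.inr (φ (t k)) : B ⊕ ℕ) : JT B Z') := funext fun k => hφ (t k)
  show Structure.RelMap i.2 (fun k => g ((Sum.inr (t k) : B ⊕ ℕ) : JT B Z)) ↔ _
  rw [e]
  exact JT.rel_inr (B := B) Z' i.2 _

omit [L.IsRelational] in
/-- The structure of a code of a structure on a countably infinite set. -/
theorem giso_code {M : Type} [L.Structure M] (e : ℕ ≃ M) :
    GIso (toI (ofI (pull (ip (L := L) M) e))) (ip (L := L) M) := by
  rw [toI_ofI]
  exact ⟨e, fun i t => Iff.rfl⟩

theorem giso_sameT {M N : Type} [L.Structure M] [L.Structure N]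
    (h : GIso (ip (L := L) M) (ip (L := L) N)) :
    SameT (L := L) (default : Fin 0 → M) (default : Fin 0 → N) := by
  obtain ⟨g, hg⟩ := h
  exact (SameT.of_iso g fun R t => hg ⟨_, R⟩ t).of_eq (fun i : Fin 0 => i.elim0)
    (Subsingleton.elim _ _) (Subsingleton.elim _ _)

theorem ip_strOf (I : Interp (ar L) ℕ) : ip (L := L) (MT (strOf I)) = I := rfl

/-- The codes of the structures that look like `U`. -/
def KU (L : FirstOrder.Language.{0, 0}) [L.IsRelational] (U : Type) [L.Structure U] :
    Set (Code (ar L)) :=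
  {c | SameT (L := L) (default : Fin 0 → MT (strOf (toI c))) (default : Fin 0 → U)}

theorem perf_join [Countable B] (U : Type) [L.Structure U]
    (hP : Perf CovE {c : Code (ar L) | Gd U B (toI c)}) : Perf GIso (KU L U) := by
  classical
  obtain ⟨f, h1, h2, h3⟩ := hP
  obtain ⟨e₀⟩ : Nonempty (ℕ ≃ B ⊕ ℕ) := nonempty_equiv_of_countable
  let F : (ℕ → Bool) → Code (ar L) := fun x => ofI (pull (ip (L := L) (JT B (toI (f x)))) e₀)
  have hF : ∀ x, GIso (toI (F x)) (ip (L := L) (JT B (toI (f x)))) := fun x =>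
    giso_code (M := JT B (toI (f x))) e₀
  refine ⟨F, ?_, fun x => ?_, fun x x' h => ?_⟩
  · refine continuous_pi fun i => continuous_pi fun t => ?_
    by_cases hs : ∃ s : Fin (ar L i) → ℕ, (fun k => e₀ (t k)) = fun k => Sum.inr (s k)
    · obtain ⟨s, hs⟩ := hs
      have e1 : (fun x => F x i t) = fun x => f x i s := by
        funext x
        rw [Bool.eq_iff_iff]
        show decide _ = true ↔ _
        rw [decide_eq_true_eq]
        show Structure.RelMap (M := JT B (toI (f x))) i.2 (fun k => e₀ (t k)) ↔ _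
        rw [hs]
        exact JT.rel_inr (B := B) (toI (f x)) i.2 s
      rw [e1]
      exact (continuous_apply s).comp ((continuous_apply i).comp h1)
    · have e1 : (fun x => F x i t) = fun _ => decide (0 < ar L i ∧ ∃ s : Fin (ar L i) → B,
          ((fun k => e₀ (t k)) = fun k => Sum.inl (s k)) ∧ Structure.RelMap i.2 s) := by
        funext x
        rw [Bool.eq_iff_iff]
        show decide _ = true ↔ decide _ = true
        rw [decide_eq_true_eq, decide_eq_true_eq]
        refine (JT.rel (toI (f x)) i.2 (fun k => e₀ (t k))).trans ?_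
        constructor
        · rintro (h | ⟨s, h, _⟩)
          · exact h
          · exact (hs ⟨s, h⟩).elim
        · exact Or.inl
      rw [e1]
      exact continuous_const
  · exact (giso_sameT (M := MT (strOf (toI (F x)))) (hF x)).trans (h2 x).1
  · have h4 := ((hF x).symm.trans h).trans (hF x')
    exact h3 x x' (gd_giso (h2 x) (h2 x') h4).covE

end

end Pool.Agent.Hp8VC
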