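import Pool.Agent.Hp8VC.Near

set_option autoImplicit false

/-!
The type of a tuple in a saturated structure is determined by the types of its parts in the
different components.
-/

namespace Pool.Agent.Hp8VC

open FirstOrder FirstOrder.Language

variable {L : FirstOrder.Language.{0, 0}} {n : ℕ}

/-- A point with the type of a point outside the bounded part, far from countably many points. -/
theorem far_point {U : Type} [L.Structure U] [Nonempty U] (hU : Satd L U) [Countable L.Symbols]
    {N : Type} [L.Structure N] {pN : Fin n → N} {pU : Fin n → U} (h : SameT (L := L) pN pU)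
    (x : N) (hx : ¬ Base L pN x) {ι : Type} [Countable ι] (a : ι → U) :
    ∃ b : U, SameT (L := L) (Sum.elim pN fun _ : Unit => x) (Sum.elim pU fun _ : Unit => b) ∧
      ∀ i, ¬ Ec L pU (a i) b := by
  classical
  choose ν hν using fun (F : Finset (Σ l, L.Relations l)) (r : ℕ) => exists_near (L := L) n F r
  let g : ι → Fin n ⊕ Fin 2 → (Fin n ⊕ ι) ⊕ Unit := fun i z => match z with
    | Sum.inl j => Sum.inl (Sum.inl j)
    | Sum.inr j => if j = 0 then Sum.inl (Sum.inr i) else Sum.inr ()
  have hg : ∀ i F r (b : Unit → U), ((ν F r).relabel (g i)).Realize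
      (Sum.elim (Sum.elim pU a) b) ↔ Near pU F r (a i) (b ()) := by
    intro i F r b
    rw [Formula.realize_relabel]
    have e : (Sum.elim (Sum.elim pU a) b) ∘ g i = Sum.elim pU ![a i, b ()] := by
      funext z
      rcases z with z | z
      · rfl
      · fin_cases z <;> rfl
    rw [e, hν]
    simp
  let g' : Fin n ⊕ Unit → (Fin n ⊕ ι) ⊕ Unit := Sum.map Sum.inl id
  have hg' : ∀ (φ : L.Formula (Fin n ⊕ Unit)) (b : Unit → U), (φ.relabel g').Realize
      (Sum.elim (Sum.elim pU a) b) ↔ φ.Realize (Sum.elim pU fun _ : Unit => b ()) := by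
    intro φ b
    rw [Formula.realize_relabel]
    have e : (Sum.elim (Sum.elim pU a) b) ∘ g' = Sum.elim pU fun _ : Unit => b () := by
      funext z
      rcases z with z | z <;> rfl
    rw [e]
  let T : Set (L.Formula ((Fin n ⊕ ι) ⊕ Unit)) :=
    {χ | ∃ φ : L.Formula (Fin n ⊕ Unit), φ.Realize (Sum.elim pN fun _ => x) ∧
      χ = φ.relabel g'} ∪ {χ | ∃ i F r, χ = ((ν F r).relabel (g i)).not}
  obtain ⟨b, hb⟩ := hU (Fin n ⊕ ι) Unit (Sum.elim pU a) T (by
    intro s hs hfin
    -- a formula in the type of `x`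
    have h1 : ∃ ψ : L.Formula (Fin n ⊕ Unit), ψ.Realize (Sum.elim pN fun _ => x) ∧
        ∀ (b : Unit → U), ψ.Realize (Sum.elim pU fun _ => b ()) →
          ∀ φ : L.Formula (Fin n ⊕ Unit), φ.relabel g' ∈ s →
            φ.Realize (Sum.elim pN fun _ => x) →
            (φ.relabel g').Realize (Sum.elim (Sum.elim pU a) b) := by
      choose! f hf using fun (χ : L.Formula ((Fin n ⊕ ι) ⊕ Unit))
        (hχ : ∃ φ : L.Formula (Fin n ⊕ Unit), φ.Realize (Sum.elim pN fun _ => x) ∧
          χ = φ.relabel g') => hχ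
      obtain ⟨ψ, hψ⟩ := conj (f '' {χ | χ ∈ s ∧ ∃ φ : L.Formula (Fin n ⊕ Unit),
        φ.Realize (Sum.elim pN fun _ => x) ∧ χ = φ.relabel g'})
        ((hfin.subset fun _ h => h.1).image f)
      refine ⟨ψ, (hψ N _).2 ?_, fun b hb φ hφs hφ => ?_⟩
      · rintro _ ⟨χ, ⟨_, hχ⟩, rfl⟩
        exact (hf χ hχ).1
      · have h2 := (hf (φ.relabel g') ⟨φ, hφ, rfl⟩)
        rw [h2.2, hg']
        exact (hψ U _).1 hb _ ⟨φ.relabel g', ⟨hφs, φ, hφ, rfl⟩, rfl⟩
    obtain ⟨ψ, hψx, hψ⟩ := h1
    -- finitely many distances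
    have h2 : ∃ (F : Finset (Σ l, L.Relations l)) (r : ℕ) (C : Finset U),
        ∀ i G t, ((ν G t).relabel (g i)).not ∈ s → ∀ b : U,
          (∀ c ∈ C, ¬ Near pU F r c b) → ¬ Near pU G t (a i) b := by
      let s' : Set (L.Formula ((Fin n ⊕ ι) ⊕ Unit)) :=
        {χ | χ ∈ s ∧ ∃ q : ι × Finset (Σ l, L.Relations l) × ℕ,
          χ = ((ν q.2.1 q.2.2).relabel (g q.1)).not}
      have hs' : s'.Finite := hfin.subset fun _ h => h.1
      have : Finite s' := hs'
      have : Fintype s' := Fintype.ofFinite s'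
      choose q hq using fun χ : s' => χ.2.2
      let Q : Finset (ι × Finset (Σ l, L.Relations l) × ℕ) := Finset.univ.image q
      refine ⟨Q.sup fun q => q.2.1, Q.sup fun q => q.2.2, Q.image fun q => a q.1,
        fun i G t hit b hb hN => ?_⟩
      let χ : s' := ⟨((ν G t).relabel (g i)).not, hit, ⟨(i, G, t), rfl⟩⟩
      have hqQ : q χ ∈ Q := Finset.mem_image_of_mem _ (Finset.mem_univ _)
      have h3 : ((ν G t).relabel (g i)).not = ((ν (q χ).2.1 (q χ).2.2).relabel (g (q χ).1)).not :=
        hq χ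
      have h4 : Near pU (q χ).2.1 (q χ).2.2 (a (q χ).1) b := by
        rw [← hg _ _ _ (fun _ => b)]
        by_contra hn
        have h5 : (((ν (q χ).2.1 (q χ).2.2).relabel (g (q χ).1)).not : L.Formula _).Realize
            (Sum.elim (Sum.elim pU a) fun _ => b) := Formula.realize_not.2 hn
        rw [← h3, Formula.realize_not, hg] at h5
        exact h5 hN
      refine hb _ (Finset.mem_image_of_mem _ hqQ) (h4.mono ?_ ?_)
      · exact Finset.le_sup (f := fun q : ι × Finset (Σ l, L.Relations l) × ℕ => q.2.1) hqQ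
      · exact Finset.le_sup (f := fun q : ι × Finset (Σ l, L.Relations l) × ℕ => q.2.2) hqQ
    obtain ⟨F, r, C, hC⟩ := h2
    have hNe : Nonempty N := ⟨x⟩
    have h3 : ¬ Bd pU ψ := fun hbd => hx ⟨ψ, hψx, hbd.transfer h.symm⟩
    have h4 : ∃ b : U, ψ.Realize (Sum.elim pU fun _ => b) ∧ ∀ c ∈ C, ¬ Near pU F r c b := by
      by_contra hn
      push Not at hn
      exact h3 ⟨F, r, C, fun b hb => hn b hb⟩
    obtain ⟨b, hb1, hb2⟩ := h4
    refine ⟨fun _ => b, fun χ hχ => ?_⟩
    rcases hs hχ with ⟨φ, hφ, rfl⟩ | ⟨i, G, t, rfl⟩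
    · exact hψ (fun _ => b) hb1 φ hχ hφ
    · rw [Formula.realize_not, hg]
      exact hC i G t hχ b hb2)
  refine ⟨b (), ?_, ?_⟩
  · have h1 : ∀ φ : L.Formula (Fin n ⊕ Unit), φ.Realize (Sum.elim pN fun _ => x) →
        φ.Realize (Sum.elim pU fun _ : Unit => b ()) := by
      intro φ hφ
      rw [← hg']
      exact hb _ (Or.inl ⟨φ, hφ, rfl⟩)
    intro φ
    refine ⟨h1 φ, fun h2 => ?_⟩
    by_contra hn
    exact Formula.realize_not.1 (h1 φ.not (Formula.realize_not.2 hn)) h2
  · rintro i ⟨F, r, hN⟩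
    have h1 := hb _ (Or.inr ⟨i, F, r, rfl⟩)
    rw [Formula.realize_not, hg] at h1
    exact h1 hN

/-- The system of the tuples that look alike in each block. -/
def Loc (L : FirstOrder.Language.{0, 0}) {U : Type} [L.Structure U] (pU : Fin n → U) {ι : Type}
    (a a' : ι → U) : Prop :=
  (∀ i j, Wb L pU (a i) (a j) ↔ Wb L pU (a' i) (a' j)) ∧
  ∀ (κ : Type) [Countable κ] (σ : κ → ι), (∀ k l, Wb L pU (a (σ k)) (a (σ l))) →
    SameT (L := L) (Sum.elim pU (a ∘ σ)) (Sum.elim pU (a' ∘ σ))

section
variable {U : Type} [L.Structure U] {pU : Fin n → U} {ι κ : Type} {a a' : ι → U}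

theorem Loc.symm (h : Loc L pU a a') : Loc L pU a' a :=
  ⟨fun i j => (h.1 i j).symm, fun κ _ σ hσ =>
    (h.2 κ σ fun k l => (h.1 _ _).2 (hσ k l)).symm⟩

theorem Loc.comp (h : Loc L pU a a') (g : κ → ι) : Loc L pU (a ∘ g) (a' ∘ g) :=
  ⟨fun i j => h.1 (g i) (g j), fun κ _ σ hσ => h.2 κ (g ∘ σ) hσ⟩

theorem Loc.base (h : Loc L pU a a') (i : ι) : Base L pU (a i) ↔ Base L pU (a' i) :=
  (h.2 Unit (fun _ => i) fun _ _ => Wb.refl _ _).base ()

/-- Adding a point. -/
theorem Loc.snoc (h : Loc L pU a a') (b b' : U)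
    (h1 : ∀ i, Wb L pU (a i) b ↔ Wb L pU (a' i) b')
    (h2 : SameT (L := L) (Sum.elim pU (Sum.elim (fun i : {i // Wb L pU (a i) b} => a i)
        fun _ : Unit => b)) (Sum.elim pU (Sum.elim (fun i : {i // Wb L pU (a i) b} => a' i)
        fun _ : Unit => b'))) :
    Loc L pU (Sum.elim a fun _ : Unit => b) (Sum.elim a' fun _ : Unit => b') := by
  classical
  refine ⟨?_, fun κ _ σ hσ => ?_⟩
  · rintro (i | i) (j | j)
    · exact h.1 i j
    · exact h1 i
    · exact ⟨fun h3 => ((h1 j).1 h3.symm).symm, fun h3 => ((h1 j).2 h3.symm).symm⟩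
    · exact ⟨fun _ => Wb.refl _ _, fun _ => Wb.refl _ _⟩
  · by_cases hk : ∃ k₀, σ k₀ = Sum.inr ()
    · obtain ⟨k₀, hk₀⟩ := hk
      have h3 : ∀ k i, σ k = Sum.inl i → Wb L pU (a i) b := by
        intro k i hki
        have := hσ k k₀
        rw [hki, hk₀] at this
        exact this
      let τ : Fin n ⊕ κ → Fin n ⊕ ({i // Wb L pU (a i) b} ⊕ Unit) := fun z => match z with
        | Sum.inl j => Sum.inl j
        | Sum.inr k => if hi : ∃ i, σ k = Sum.inl i then
            Sum.inr (Sum.inl ⟨hi.choose, h3 k _ hi.choose_spec⟩) else Sum.inr (Sum.inr ())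
      refine h2.of_eq τ ?_ ?_
      · funext z
        rcases z with z | z
        · rfl
        · by_cases hi : ∃ i, σ z = Sum.inl i
          · simp only [Function.comp_apply, Sum.elim_inr, τ, dif_pos hi, Sum.elim_inl]
            exact congrArg (Sum.elim a fun _ : Unit => b) hi.choose_spec
          · have hz : σ z = Sum.inr () := by
              rcases hs : σ z with i | i
              · exact (hi ⟨i, hs⟩).elim
              · rfl
            simp only [Function.comp_apply, Sum.elim_inr, τ, dif_neg hi]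
            rw [hz]
            simp
      · funext z
        rcases z with z | z
        · rfl
        · by_cases hi : ∃ i, σ z = Sum.inl i
          · simp only [Function.comp_apply, Sum.elim_inr, τ, dif_pos hi, Sum.elim_inl]
            exact congrArg (Sum.elim a' fun _ : Unit => b') hi.choose_spec
          · have hz : σ z = Sum.inr () := by
              rcases hs : σ z with i | i
              · exact (hi ⟨i, hs⟩).elim
              · rfl
            simp only [Function.comp_apply, Sum.elim_inr, τ, dif_neg hi]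
            rw [hz]
            simp
    · have h3 : ∀ k, ∃ i, σ k = Sum.inl i := by
        intro k
        rcases hs : σ k with i | i
        · exact ⟨i, rfl⟩
        · exact (hk ⟨k, hs⟩).elim
      choose τ hτ using h3
      obtain rfl : σ = Sum.inl ∘ τ := funext hτ
      exact h.2 κ τ hσ

theorem Loc.forth [Nonempty U] (hU : Satd L U) [Countable L.Symbols] [Countable ι]
    (h : Loc L pU a a') (b : U) :
    ∃ b' : U, Loc L pU (Sum.elim a fun _ : Unit => b) (Sum.elim a' fun _ : Unit => b') := by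
  classical
  have key := fun b' h1 h2 => h.snoc b b' h1 h2
  by_cases hne : ∃ i₀, Wb L pU (a i₀) b
  · obtain ⟨i₀, hi₀⟩ := hne
    have h1 : SameT (L := L) (Sum.elim pU (fun i : {i // Wb L pU (a i) b} => a i))
        (Sum.elim pU (fun i : {i // Wb L pU (a i) b} => a' i)) :=
      h.2 {i // Wb L pU (a i) b} Subtype.val fun k l => k.2.trans l.2.symm
    obtain ⟨b', hb'⟩ := ext_tuple hU h1 (fun _ : Unit => b)
    have h2 : SameT (L := L) (Sum.elim pU (Sum.elim (fun i : {i // Wb L pU (a i) b} => a i)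
        fun _ : Unit => b)) (Sum.elim pU (Sum.elim (fun i : {i // Wb L pU (a i) b} => a' i)
        fun _ : Unit => b' ())) := by
      refine hb'.of_eq (fun z => match z with
        | Sum.inl j => Sum.inl (Sum.inl j)
        | Sum.inr (Sum.inl j) => Sum.inl (Sum.inr j)
        | Sum.inr (Sum.inr _) => Sum.inr ()) ?_ ?_ <;>
      · funext z
        rcases z with z | z | z <;> rfl
    refine ⟨b' (), key _ (fun i => ⟨fun h3 => ?_, fun h3 => ?_⟩) h2⟩
    · exact (h2.wb (Sum.inl ⟨i, h3⟩) (Sum.inr ())).1 h3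
    · have h4 : Wb L pU (a' i₀) (b' ()) := (h2.wb (Sum.inl ⟨i₀, hi₀⟩) (Sum.inr ())).1 hi₀
      exact ((h.1 i i₀).2 (h3.trans h4.symm)).trans hi₀
  · push Not at hne
    have hemp : IsEmpty {i // Wb L pU (a i) b} := ⟨fun i => hne i.1 i.2⟩
    by_cases hb : Base L pU b
    · refine ⟨b, key b (fun i => ⟨fun h3 => (hne i h3).elim, fun h3 => ?_⟩) ?_⟩
      · exact Or.inr ⟨(h.base i).2 (h3.base_iff.2 hb), hb⟩
      · refine (SameT.refl (L := L) (Sum.elim pU (Sum.elim
          (fun i : {i // Wb L pU (a i) b} => a i) fun _ : Unit => b))).trans ?_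
        have e : (fun i : {i // Wb L pU (a i) b} => a i) =
            (fun i : {i // Wb L pU (a i) b} => a' i) := funext fun i => (hemp.false i).elim
        rw [e]
        exact SameT.refl _
    · obtain ⟨b', h1, h2⟩ := far_point hU (SameT.refl (L := L) pU) b hb a'
      have hb' : ¬ Base L pU b' := fun h3 => hb ((h1.base ()).2 h3)
      refine ⟨b', key b' (fun i => ⟨fun h3 => (hne i h3).elim, fun h3 => ?_⟩) ?_⟩
      · rcases h3 with h3 | h3
        · exact (h2 i h3).elim
        · exact (hb' h3.2).elim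
      · refine h1.of_eq (fun z => match z with
          | Sum.inl j => Sum.inl j
          | Sum.inr (Sum.inl j) => (hemp.false j).elim
          | Sum.inr (Sum.inr _) => Sum.inr ()) ?_ ?_ <;>
        · funext z
          rcases z with z | z | z
          · rfl
          · exact (hemp.false z).elim
          · rfl

theorem Loc.eq_iff (h : Loc L pU a a') (i j : ι) : a i = a j ↔ a' i = a' j := by
  have h1 : ∀ {a a' : ι → U}, Loc L pU a a' → a i = a j → a' i = a' j := by
    intro a a' h hij
    have h2 := h.2 (Fin 2) ![i, j] (by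
      intro k l
      fin_cases k <;> fin_cases l <;> simp [hij, Wb.refl])
    exact (h2.eq_iff (Sum.inr 0) (Sum.inr 1)).1 hij
  exact ⟨h1 h, h1 h.symm⟩

theorem Loc.rel {l : ℕ} (R : L.Relations l) (h : Loc L pU a a') (u : Fin l → ι)
    (hR : Structure.RelMap R (a ∘ u)) : Structure.RelMap R (a' ∘ u) := by
  classical
  let κ : Type := {k : Fin l // a (u k) ∉ Set.range pU}
  have h1 := h.2 κ (fun k => u k.1) (by
    intro k m
    exact Or.inl ⟨{⟨l, R⟩}, 1, a (u k.1), rfl, Or.inr ⟨k.2, m.2, ⟨l, R⟩,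
      Finset.mem_singleton_self _, a ∘ u, hR, ⟨k.1, rfl⟩, ⟨m.1, rfl⟩⟩⟩)
  have h2 : ∀ k : Fin l, a (u k) ∈ Set.range pU → ∃ j, pU j = a (u k) := fun k hk => hk
  let c : Fin l → Fin n ⊕ κ := fun k =>
    if hk : a (u k) ∈ Set.range pU then Sum.inl (h2 k hk).choose else Sum.inr ⟨k, hk⟩
  have e1 : a ∘ u = (Sum.elim pU (a ∘ fun k : κ => u k.1)) ∘ c := by
    funext k
    by_cases hk : a (u k) ∈ Set.range pU
    · simp only [Function.comp_apply, c, dif_pos hk, Sum.elim_inl]
      exact (h2 k hk).choose_spec.symm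
    · simp only [Function.comp_apply, c, dif_neg hk, Sum.elim_inr]
  have e2 : a' ∘ u = (Sum.elim pU (a' ∘ fun k : κ => u k.1)) ∘ c := by
    funext k
    by_cases hk : a (u k) ∈ Set.range pU
    · simp only [Function.comp_apply, c, dif_pos hk, Sum.elim_inl]
      have h3 := h.2 Unit (fun _ => u k) fun _ _ => Wb.refl _ _
      exact ((h3.eq_iff (Sum.inl (h2 k hk).choose) (Sum.inr ())).1
        (h2 k hk).choose_spec).symm
    · simp only [Function.comp_apply, c, dif_neg hk, Sum.elim_inr]
  rw [e1] at hR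
  rw [e2]
  have h3 := h1.comp c (R.formula fun k => Term.var k)
  rw [Formula.realize_rel, Formula.realize_rel] at h3
  exact h3.1 hR

theorem Loc.realize_aux [Nonempty U] [L.IsRelational] (hU : Satd L U) [Countable L.Symbols]
    {α : Type} [Countable α] : ∀ {m : ℕ} (φ : L.BoundedFormula α m) (v v' : α → U)
    (xs xs' : Fin m → U), Loc L pU (Sum.elim v xs) (Sum.elim v' xs') →
    (φ.Realize v xs ↔ φ.Realize v' xs') := by
  have hterm : ∀ {β : Type} (t : L.Term β), ∃ i, t = Term.var i := by
    intro β t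
    cases t with
    | var i => exact ⟨i, rfl⟩
    | func f _ => exact isEmptyElim f
  intro m φ
  induction φ with
  | falsum => intros; exact Iff.rfl
  | equal t₁ t₂ =>
    intro v v' xs xs' h
    obtain ⟨i, rfl⟩ := hterm t₁
    obtain ⟨j, rfl⟩ := hterm t₂
    exact h.eq_iff i j
  | rel R ts =>
    intro v v' xs xs' h
    choose u hu using fun k => hterm (ts k)
    obtain rfl : ts = fun k => Term.var (u k) := funext hu
    exact ⟨fun h1 => h.rel R u h1, fun h1 => h.symm.rel R u h1⟩
  | imp φ ψ ih1 ih2 =>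
    intro v v' xs xs' h
    exact imp_congr (ih1 v v' xs xs' h) (ih2 v v' xs xs' h)
  | @all m φ ih =>
    intro v v' xs xs' h
    have h1 : ∀ {v v' : α → U} {xs xs' : Fin m → U},
        Loc L pU (Sum.elim v xs) (Sum.elim v' xs') →
        (∀ x, φ.Realize v (Fin.snoc xs x)) → ∀ x, φ.Realize v' (Fin.snoc xs' x) := by
      intro v v' xs xs' h h2 x
      obtain ⟨y, hy⟩ := h.symm.forth hU x
      have hy' := hy.symm
      let g : α ⊕ Fin (m + 1) → (α ⊕ Fin m) ⊕ Unit := fun z => match z with
        | Sum.inl i => Sum.inl (Sum.inl i)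
        | Sum.inr j => Fin.lastCases (motive := fun _ => (α ⊕ Fin m) ⊕ Unit) (Sum.inr ())
            (fun j => Sum.inl (Sum.inr j)) j
      have e : ∀ (v : α → U) (xs : Fin m → U) (x : U),
          (Sum.elim (Sum.elim v xs) fun _ : Unit => x) ∘ g = Sum.elim v (Fin.snoc xs x) := by
        intro v xs x
        funext z
        rcases z with z | z
        · rfl
        · refine Fin.lastCases ?_ (fun j => ?_) z
          · simp [g]
          · simp [g]
      have h3 := hy'.comp g
      rw [e, e] at h3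
      exact (ih v v' _ _ h3).1 (h2 y)
    exact ⟨h1 h, h1 h.symm⟩

/-- The type of a tuple is determined by the types of its parts in the blocks. -/
theorem Loc.sameT [Nonempty U] [L.IsRelational] (hU : Satd L U) [Countable L.Symbols]
    [Countable ι] (h : Loc L pU a a') : SameT (L := L) a a' := by
  intro φ
  refine Loc.realize_aux (pU := pU) hU φ a a' default default ?_
  have e : ∀ a : ι → U, Sum.elim a (default : Fin 0 → U) =
      a ∘ (Sum.elim id fun i : Fin 0 => i.elim0) := by
    intro a
    funext z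
    rcases z with z | z
    · rfl
    · exact z.elim0
  rw [e, e]
  exact h.comp _

/-- Adding the named elements. -/
theorem Loc.par (h : Loc L pU a a') : Loc L pU (Sum.elim pU a) (Sum.elim pU a') := by
  refine ⟨?_, fun κ _ σ hσ => ?_⟩
  · rintro (i | i) (j | j)
    · exact Iff.rfl
    · have h1 : ∀ x, Wb L pU (pU i) x ↔ Base L pU x := fun x =>
        ⟨fun h => h.base_iff.1 (base_par pU i), fun h => Or.inr ⟨base_par pU i, h⟩⟩
      exact (h1 _).trans ((h.base j).trans (h1 _).symm)
    · have h1 : ∀ x, Wb L pU x (pU j) ↔ Base L pU x := fun x =>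
        ⟨fun h => h.base_iff.2 (base_par pU j), fun h => Or.inr ⟨h, base_par pU j⟩⟩
      exact (h1 _).trans ((h.base i).trans (h1 _).symm)
    · exact h.1 i j
  · have h1 := h.2 {k : κ // ∃ i, σ k = Sum.inr i} (fun k => k.2.choose) (by
      intro k l
      have h1 := hσ k.1 l.1
      rw [k.2.choose_spec, l.2.choose_spec] at h1
      exact h1)
    classical
    have hl : ∀ k, (¬ ∃ i, σ k = Sum.inr i) → ∃ j, σ k = Sum.inl j := by
      intro k hk
      rcases hs : σ k with i | i
      · exact ⟨i, rfl⟩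
      · exact (hk ⟨i, hs⟩).elim
    refine h1.of_eq (fun z => match z with
      | Sum.inl j => Sum.inl j
      | Sum.inr k => if hk : ∃ i, σ k = Sum.inr i then Sum.inr ⟨k, hk⟩
          else Sum.inl (hl k hk).choose) ?_ ?_
    · funext z
      rcases z with z | z
      · rfl
      · by_cases hk : ∃ i, σ z = Sum.inr i
        · simp only [Function.comp_apply, Sum.elim_inr, dif_pos hk]
          exact congrArg (Sum.elim pU a) hk.choose_spec
        · simp only [Function.comp_apply, Sum.elim_inr, dif_neg hk, Sum.elim_inl]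
          exact congrArg (Sum.elim pU a) (hl z hk).choose_spec
    · funext z
      rcases z with z | z
      · rfl
      · by_cases hk : ∃ i, σ z = Sum.inr i
        · simp only [Function.comp_apply, Sum.elim_inr, dif_pos hk]
          exact congrArg (Sum.elim pU a') hk.choose_spec
        · simp only [Function.comp_apply, Sum.elim_inr, dif_neg hk, Sum.elim_inl]
          exact congrArg (Sum.elim pU a') (hl z hk).choose_spec

end

end Pool.Agent.Hp8VC
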