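import Pool.Agent.Hp8VC.BF

set_option autoImplicit false

/-!
A criterion for a subset of a saturated structure to be an elementary substructure.
-/

namespace Pool.Agent.Hp8VC

open FirstOrder FirstOrder.Language

variable {L : FirstOrder.Language.{0, 0}} {n : ℕ}

/-- Compactness over a saturated structure. -/
theorem cpt {U : Type} [L.Structure U] [Nonempty U] (hU : Satd L U) {ι : Type} [Countable ι]
    (a : ι → U)
    {α : Type} (g : α → ι ⊕ Unit) {K : Type} [L.Structure K] (v : α → K)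
    (T : Set (L.Formula (ι ⊕ Unit))) (φ : L.Formula (ι ⊕ Unit))
    (h : ∀ y : U, (∀ ψ : L.Formula α, ψ.Realize v →
      ψ.Realize ((Sum.elim a fun _ : Unit => y) ∘ g)) →
      (∀ χ ∈ T, χ.Realize (Sum.elim a fun _ : Unit => y)) →
      φ.Realize (Sum.elim a fun _ : Unit => y)) :
    ∃ ψ : L.Formula α, ψ.Realize v ∧ ∃ s ⊆ T, s.Finite ∧ ∀ y : U,
      ψ.Realize ((Sum.elim a fun _ : Unit => y) ∘ g) →
      (∀ χ ∈ s, χ.Realize (Sum.elim a fun _ : Unit => y)) →
      φ.Realize (Sum.elim a fun _ : Unit => y) := by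
  classical
  by_contra hcon
  push Not at hcon
  let T' : Set (L.Formula (ι ⊕ Unit)) :=
    {χ | ∃ ψ : L.Formula α, ψ.Realize v ∧ χ = ψ.relabel g} ∪ (T ∪ {φ.not})
  obtain ⟨b, hb⟩ := hU ι Unit a T' (by
    intro s hs hfin
    have hfin1 : Finite {χ | χ ∈ s ∧ ∃ ψ : L.Formula α, ψ.Realize v ∧ χ = ψ.relabel g} :=
      hfin.subset fun _ h => h.1
    choose f hf using fun χ : {χ | χ ∈ s ∧ ∃ ψ : L.Formula α, ψ.Realize v ∧ χ = ψ.relabel g} =>
      χ.2.2
    obtain ⟨ψ, hψ⟩ := conj (Set.range f) (Set.finite_range f)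
    obtain ⟨y, hy1, hy2, hy3⟩ := hcon ψ ((hψ K v).2 (by
      rintro _ ⟨χ, rfl⟩
      exact (hf χ).1)) (s ∩ T) Set.inter_subset_right (hfin.subset Set.inter_subset_left)
    refine ⟨fun _ => y, fun χ hχ => ?_⟩
    rcases hs hχ with h1 | h1 | h1
    · have h2 := hf ⟨χ, hχ, h1⟩
      rw [show χ = (f ⟨χ, hχ, h1⟩).relabel g from h2.2, Formula.realize_relabel]
      exact (hψ U _).1 hy1 _ ⟨_, rfl⟩
    · exact hy2 χ ⟨hχ, h1⟩
    · rw [h1, Formula.realize_not]
      exact hy3)
  have hb3 := hb φ.not (Or.inr (Or.inr rfl))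
  rw [Formula.realize_not] at hb3
  refine hb3 ?_
  have e : b = fun _ : Unit => b () := rfl
  rw [e]
  refine h (b ()) (fun ψ hψ => ?_) fun χ hχ => hb χ (Or.inr (Or.inl hχ))
  have h1 := hb (ψ.relabel g) (Or.inl ⟨ψ, hψ, rfl⟩)
  rw [Formula.realize_relabel] at h1
  exact h1

/-- The formulas which say that the last variable is far from the point with index `i`. -/
def farT {U : Type} [L.Structure U] (pU : Fin n → U) {ι : Type} (a : ι → U) :
    Set (L.Formula ((Fin n ⊕ ι) ⊕ Unit)) :=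
  {χ | ∃ (i : ι) (F : Finset (Σ l, L.Relations l)) (r : ℕ), ∀ y : U,
    χ.Realize (Sum.elim (Sum.elim pU a) fun _ : Unit => y) ↔ ¬ Near pU F r (a i) y}

theorem farT_fin {U : Type} [L.Structure U] (pU : Fin n → U) {ι : Type} (a : ι → U)
    (s : Set (L.Formula ((Fin n ⊕ ι) ⊕ Unit))) (hs : s.Finite) : s ⊆ farT pU a →
    ∃ (F : Finset (Σ l, L.Relations l)) (r : ℕ) (C : Finset U), ∀ y : U,
      (∀ c ∈ C, ¬ Near pU F r c y) →
      ∀ χ ∈ s, χ.Realize (Sum.elim (Sum.elim pU a) fun _ : Unit => y) := by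
  classical
  induction s, hs using Set.Finite.induction_on with
  | empty => exact fun _ => ⟨∅, 0, ∅, fun _ _ χ hχ => hχ.elim⟩
  | @insert χ s _ _ ih =>
    intro h
    obtain ⟨F, r, C, hC⟩ := ih fun χ hχ => h (Or.inr hχ)
    obtain ⟨i, G, t, hG⟩ := h (Or.inl rfl : χ ∈ insert χ s)
    refine ⟨F ∪ G, max r t, insert (a i) C, fun y hy χ' hχ' => ?_⟩
    rcases hχ' with rfl | hχ'
    · rw [hG]
      exact fun h1 => hy _ (Finset.mem_insert_self _ _)
        (h1.mono Finset.subset_union_right (le_max_right _ _))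
    · exact hC y (fun c hc h1 => hy c (Finset.mem_insert_of_mem hc)
        (h1.mono Finset.subset_union_left (le_max_left _ _))) χ' hχ'

theorem farT_ec {U : Type} [L.Structure U] (pU : Fin n → U) {ι : Type} (a : ι → U) (y : U)
    (h : ∀ χ ∈ farT pU a, (χ : L.Formula ((Fin n ⊕ ι) ⊕ Unit)).Realize
      (Sum.elim (Sum.elim pU a) fun _ : Unit => y)) (i : ι) : ¬ Ec L pU (a i) y := by
  rintro ⟨F, r, hN⟩
  obtain ⟨ν, hν⟩ := exists_near (L := L) n F r
  let g : Fin n ⊕ Fin 2 → (Fin n ⊕ ι) ⊕ Unit := fun z => match z with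
    | Sum.inl j => Sum.inl (Sum.inl j)
    | Sum.inr j => if j = 0 then Sum.inl (Sum.inr i) else Sum.inr ()
  have hg : ∀ b : U, ((ν.relabel g).not).Realize
      (Sum.elim (Sum.elim pU a) fun _ : Unit => b) ↔ ¬ Near pU F r (a i) b := by
    intro b
    rw [Formula.realize_not, Formula.realize_relabel]
    have e : (Sum.elim (Sum.elim pU a) fun _ : Unit => b) ∘ g = Sum.elim pU ![a i, b] := by
      funext z
      rcases z with z | z
      · rfl
      · fin_cases z <;> rfl
    rw [e, hν]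
    simp
  exact (hg y).1 (h _ ⟨i, F, r, hg⟩) hN

/-- Closed under witnesses. -/
def Elem (L : FirstOrder.Language.{0, 0}) {U : Type} [L.Structure U] (E : Set U) : Prop :=
  ∀ (κ : Type) [Countable κ] (a : κ → U), (∀ k, a k ∈ E) → ∀ φ : L.Formula (κ ⊕ Unit),
    (∃ y, φ.Realize (Sum.elim a fun _ : Unit => y)) →
    ∃ y ∈ E, φ.Realize (Sum.elim a fun _ : Unit => y)

theorem Elem.of_sameT {M U : Type} [L.Structure M] [L.Structure U] [Nonempty M] [Nonempty U]
    (f : M → U) (h : SameT (L := L) (id : M → M) f) : Elem L (Set.range f) := by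
  intro κ _ a ha φ hφ
  choose c hc using ha
  obtain rfl : a = f ∘ c := funext fun k => (hc k).symm
  obtain ⟨ψ, hψ⟩ := exq φ
  have h1 : ψ.Realize (f ∘ c) := by
    obtain ⟨y, hy⟩ := hφ
    exact (hψ U _).2 ⟨fun _ => y, hy⟩
  have h2 : ψ.Realize c := (h.comp c ψ).2 h1
  obtain ⟨w, hw⟩ := (hψ M c).1 h2
  refine ⟨f (w ()), ⟨_, rfl⟩, ?_⟩
  have h3 := (h.comp (Sum.elim c w) φ).1 hw
  have e : f ∘ Sum.elim c w = Sum.elim (f ∘ c) fun _ : Unit => f (w ()) := by
    funext z
    rcases z with z | z <;> rfl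
  rwa [e] at h3

section
variable {U : Type} [L.Structure U] [Nonempty U] [L.IsRelational] [Countable L.Symbols]

/-- The criterion. -/
theorem crit (hU : Satd L U) (pU : Fin n → U) (D : Set U)
    (hB : ∃ E, Elem L E ∧ (∀ i, pU i ∈ E) ∧ ∀ y, Base L pU y → (y ∈ D ↔ y ∈ E))
    (hN : ∀ x ∈ D, ¬ Base L pU x → ∃ E, Elem L E ∧ (∀ i, pU i ∈ E) ∧
      ∀ y, Ec L pU x y → (y ∈ D ↔ y ∈ E))
    (hD : ∀ ψ : L.Formula (Fin n ⊕ Unit), ¬ Bd pU ψ → ∀ (F : Finset (Σ l, L.Relations l)) (r : ℕ)
      (C : Finset U), ∃ y ∈ D, ψ.Realize (Sum.elim pU fun _ : Unit => y) ∧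
        ∀ c ∈ C, ¬ Near pU F r c y) : Elem L D := by
  classical
  intro κ _ a ha φ hφ
  obtain ⟨b, hb⟩ := hφ
  let κ₀ : Type := {k // Wb L pU (a k) b}
  let g : (Fin n ⊕ κ₀) ⊕ Unit → (Fin n ⊕ κ) ⊕ Unit := Sum.map (Sum.map id Subtype.val) id
  have eg : ∀ y : U, (Sum.elim (Sum.elim pU a) fun _ : Unit => y) ∘ g =
      Sum.elim (Sum.elim pU fun k : κ₀ => a k) fun _ : Unit => y := by
    intro y
    funext z
    rcases z with (z | z) | z <;> rfl
  let gφ : κ ⊕ Unit → (Fin n ⊕ κ) ⊕ Unit := Sum.map Sum.inr id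
  have eφ : ∀ y : U, (φ.relabel gφ).Realize (Sum.elim (Sum.elim pU a) fun _ : Unit => y) ↔
      φ.Realize (Sum.elim a fun _ : Unit => y) := by
    intro y
    rw [Formula.realize_relabel]
    have e : (Sum.elim (Sum.elim pU a) fun _ : Unit => y) ∘ gφ =
        Sum.elim a fun _ : Unit => y := by
      funext z
      rcases z with z | z <;> rfl
    rw [e]
  -- the claim on types
  have claim : ∀ y : U, (∀ k, Wb L pU (a k) b ↔ Wb L pU (a k) y) →
      SameT (L := L) (Sum.elim (Sum.elim pU fun k : κ₀ => a k) fun _ : Unit => b)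
        (Sum.elim (Sum.elim pU fun k : κ₀ => a k) fun _ : Unit => y) →
      φ.Realize (Sum.elim a fun _ : Unit => y) := by
    intro y h1 h2
    have h0 : Loc L pU a a := ⟨fun _ _ => Iff.rfl, fun _ _ _ _ => SameT.refl _⟩
    have h3 := h0.snoc b y h1 (h2.of_eq (fun z => match z with
        | Sum.inl j => Sum.inl (Sum.inl j)
        | Sum.inr (Sum.inl j) => Sum.inl (Sum.inr j)
        | Sum.inr (Sum.inr _) => Sum.inr ()) (by
          funext z
          rcases z with z | z | z <;> rfl) (by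
          funext z
          rcases z with z | z | z <;> rfl))
    exact (h3.sameT hU φ).1 hb
  -- the case of a nonempty block
  have main : ∀ (E : Set U), Elem L E → (∀ i, pU i ∈ E) →
      (∀ y, Wb L pU y b → (y ∈ D ↔ y ∈ E)) →
      ∀ β : L.Formula ((Fin n ⊕ κ₀) ⊕ Unit),
        β.Realize (Sum.elim (Sum.elim pU fun k : κ₀ => a k) fun _ : Unit => b) →
        (∀ y : U, β.Realize (Sum.elim (Sum.elim pU fun k : κ₀ => a k) fun _ : Unit => y) →
          Wb L pU y b) → ∃ y ∈ D, φ.Realize (Sum.elim a fun _ : Unit => y) := by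
    intro E hE hp hDE β hβ hβW
    obtain ⟨ψ, hψ, s, hs, hfin, hψφ⟩ := cpt hU (Sum.elim pU a) g
      (Sum.elim (Sum.elim pU fun k : κ₀ => a k) fun _ : Unit => b) ∅ (φ.relabel gφ) (by
        intro y hy _
        rw [eφ]
        have hy' : ∀ ψ : L.Formula ((Fin n ⊕ κ₀) ⊕ Unit),
            ψ.Realize (Sum.elim (Sum.elim pU fun k : κ₀ => a k) fun _ : Unit => b) →
            ψ.Realize (Sum.elim (Sum.elim pU fun k : κ₀ => a k) fun _ : Unit => y) := by
          intro ψ h1
          have := hy ψ h1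
          rwa [eg] at this
        have hW := hβW y (hy' β hβ)
        refine claim y (fun k => ⟨fun h => h.trans hW.symm, fun h => h.trans hW⟩) fun ψ =>
          ⟨hy' ψ, fun h1 => ?_⟩
        by_contra hn
        exact Formula.realize_not.1 (hy' ψ.not (Formula.realize_not.2 hn)) h1)
    obtain rfl : s = ∅ := Set.subset_empty_iff.1 hs
    obtain ⟨y, hyE, hy⟩ := hE (Fin n ⊕ κ₀) (Sum.elim pU fun k : κ₀ => a k) (by
      rintro (i | k)
      · exact hp i
      · exact (hDE _ k.2).1 (ha k)) (ψ ⊓ β) ⟨b, Formula.realize_inf.2 ⟨hψ, hβ⟩⟩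
    rw [Formula.realize_inf] at hy
    have hW := hβW y hy.2
    refine ⟨y, (hDE y hW).2 hyE, ?_⟩
    rw [← eφ]
    refine hψφ y ?_ (fun χ hχ => hχ.elim)
    rw [eg]
    exact hy.1
  by_cases hbB : Base L pU b
  · obtain ⟨E, hE, hp, hDE⟩ := hB
    obtain ⟨β, hβ, hβB⟩ := hbB
    refine main E hE hp (fun y hy => hDE y (hy.base_iff.2 ⟨β, hβ, hβB⟩))
      (β.relabel (Sum.map Sum.inl id)) ?_ fun y hy => Or.inr ⟨⟨β, ?_, hβB⟩, ⟨β, hβ, hβB⟩⟩
    · rw [Formula.realize_relabel]
      have e : (Sum.elim (Sum.elim pU fun k : κ₀ => a k) fun _ : Unit => b) ∘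
          (Sum.map Sum.inl id) = Sum.elim pU fun _ : Unit => b := by
        funext z
        rcases z with z | z <;> rfl
      rw [e]
      exact hβ
    · rw [Formula.realize_relabel] at hy
      have e : (Sum.elim (Sum.elim pU fun k : κ₀ => a k) fun _ : Unit => y) ∘
          (Sum.map Sum.inl id) = Sum.elim pU fun _ : Unit => y := by
        funext z
        rcases z with z | z <;> rfl
      rw [e] at hy
      exact hy
  have hWE : ∀ x, Wb L pU x b → Ec L pU x b := fun x h => h.resolve_right fun h1 => hbB h1.2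
  by_cases hne : ∃ k, Wb L pU (a k) b
  · obtain ⟨k₀, hk₀⟩ := hne
    obtain ⟨E, hE, hp, hDE⟩ := hN (a k₀) (ha k₀) fun h => hbB (hk₀.base_iff.1 h)
    obtain ⟨F, r, hN⟩ := hWE _ hk₀
    obtain ⟨ν, hν⟩ := exists_near (L := L) n F r
    let g0 : Fin n ⊕ Fin 2 → (Fin n ⊕ κ₀) ⊕ Unit := fun z => match z with
      | Sum.inl j => Sum.inl (Sum.inl j)
      | Sum.inr j => if j = 0 then Sum.inl (Sum.inr ⟨k₀, hk₀⟩) else Sum.inr ()
    have hg0 : ∀ y : U, (ν.relabel g0).Realize
        (Sum.elim (Sum.elim pU fun k : κ₀ => a k) fun _ : Unit => y) ↔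
          Near pU F r (a k₀) y := by
      intro y
      rw [Formula.realize_relabel]
      have e : (Sum.elim (Sum.elim pU fun k : κ₀ => a k) fun _ : Unit => y) ∘ g0 =
          Sum.elim pU ![a k₀, y] := by
        funext z
        rcases z with z | z
        · rfl
        · fin_cases z <;> rfl
      rw [e, hν]
      simp
    refine main E hE hp (fun y hy => hDE y ?_) (ν.relabel g0) ((hg0 b).2 hN) fun y hy => ?_
    · have h1 : Ec L pU (a k₀) b := ⟨F, r, hN⟩
      exact h1.trans (hWE y hy).symm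
    · have h1 : Ec L pU (a k₀) y := ⟨F, r, (hg0 y).1 hy⟩
      exact Or.inl (h1.symm.trans ⟨F, r, hN⟩)
  · push Not at hne
    have hemp : IsEmpty κ₀ := ⟨fun i => hne i.1 i.2⟩
    obtain ⟨ψ, hψ, s, hs, hfin, hψφ⟩ := cpt hU (Sum.elim pU a)
      (Sum.map Sum.inl id : Fin n ⊕ Unit → (Fin n ⊕ κ) ⊕ Unit)
      (Sum.elim pU fun _ : Unit => b) (farT pU a) (φ.relabel gφ) (by
        intro y hy hfar
        rw [eφ]
        have ey : (Sum.elim (Sum.elim pU a) fun _ : Unit => y) ∘ (Sum.map Sum.inl id) =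
            Sum.elim pU fun _ : Unit => y := by
          funext z
          rcases z with z | z <;> rfl
        have hy' : SameT (L := L) (Sum.elim pU fun _ : Unit => b)
            (Sum.elim pU fun _ : Unit => y) := by
          intro ψ
          refine ⟨fun h1 => ?_, fun h1 => ?_⟩
          · have := hy ψ h1
            rwa [ey] at this
          · by_contra hn
            have := hy ψ.not (Formula.realize_not.2 hn)
            rw [ey, Formula.realize_not] at this
            exact this h1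
        have hyB : ¬ Base L pU y := fun h => hbB ((hy'.base ()).2 h)
        refine claim y (fun k => ⟨fun h => (hne k h).elim, fun h => ?_⟩) ?_
        · rcases h with h | h
          · exact (farT_ec pU a y hfar k h).elim
          · exact (hyB h.2).elim
        · refine hy'.of_eq (fun z => match z with
            | Sum.inl (Sum.inl j) => Sum.inl j
            | Sum.inl (Sum.inr j) => (hemp.false j).elim
            | Sum.inr _ => Sum.inr ()) ?_ ?_ <;>
          · funext z
            rcases z with (z | z) | z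
            · rfl
            · exact (hemp.false z).elim
            · rfl)
    obtain ⟨F, r, C, hC⟩ := farT_fin pU a s hfin hs
    obtain ⟨y, hyD, hyψ, hyC⟩ := hD ψ (fun h => hbB ⟨ψ, hψ, h⟩) F r C
    refine ⟨y, hyD, ?_⟩
    rw [← eφ]
    refine hψφ y ?_ (hC y hyC)
    have ey : (Sum.elim (Sum.elim pU a) fun _ : Unit => y) ∘ (Sum.map Sum.inl id) =
        Sum.elim pU fun _ : Unit => y := by
      funext z
      rcases z with z | z <;> rfl
    rw [ey]
    exact hyψ

end

end Pool.Agent.Hp8VC
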