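import Pool.Agent.Hp8VC.Asm

set_option autoImplicit false

/-!
The dichotomy for theories whose bounded parts fall into countably many isomorphism types.
-/

namespace Pool.Agent.Hp8VC

open FirstOrder FirstOrder.Language Set
open Pool.Agent.H623R2.VE (Interp ar Conn Adj CIso CEq GIso Code toI ofI toI_ofI pull pull_ciso
  Perf CovE Pw measurableSet_rel strOf interpOf)

variable {L : FirstOrder.Language.{0, 0}}

section
variable [L.IsRelational]

/-- The dichotomy for the structures that look like a given saturated structure. -/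
theorem complete_dich [Countable L.Symbols] (U : Type) [L.Structure U] [Nonempty U]
    (hU : Satd L U) (hK : MeasurableSet (KU L U))
    (HB : ∃ P : ℕ → Code (ar L), ∀ c ∈ KU L U, ∃ j,
      BIso L (MT (strOf (toI c))) (MT (strOf (toI (P j))))) :
    (∃ S : Set (Code (ar L)), S.Countable ∧ ∀ c ∈ KU L U, ∃ c' ∈ S, GIso (toI c) (toI c')) ∨
      Perf GIso (KU L U) := by
  by_cases hP : Perf GIso (KU L U)
  · exact Or.inr hP
  left
  have hcR : Countable (Σ n, L.Relations n) :=
    Function.Injective.countable (f := (Sum.inr : (Σ n, L.Relations n) → L.Symbols))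
      Sum.inr_injective
  obtain ⟨P, hPj⟩ := HB
  have hBc : ∀ j, Countable (BP L (MT (strOf (toI (P j))))) := fun j => inferInstance
  choose f hf using fun j => second_parts (B := BP L (MT (strOf (toI (P j))))) U hU
    fun h => hP (perf_join U h)
  obtain ⟨e⟩ : Nonempty (ℕ ≃ ℕ × (ℕ ⊕ ℕ)) := nonempty_equiv_of_countable
  let fl : ℕ → Code (ar L) × ℕ := fun n => match (e n).2 with
    | Sum.inl k => f (e n).1 k
    | Sum.inr b => (P (e n).1, b)
  refine Pool.Agent.H623R2.VE.countable_iso hK hP fl fun c hc b => ?_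
  obtain ⟨j, g, hg⟩ := hPj c hc
  let M : Type := MT (strOf (toI c))
  by_cases hb : Base L (default : Fin 0 → MT (strOf (toI c))) b
  · have h1 := base_ceq g hg ⟨b, hb⟩
    refine ⟨e.symm (j, Sum.inr (g ⟨b, hb⟩).1), ?_⟩
    have h2 : fl (e.symm (j, Sum.inr (g ⟨b, hb⟩).1)) = (P j, (g ⟨b, hb⟩).1) := by
      simp only [fl, Equiv.apply_symm_apply]
      rfl
    rw [h2]
    exact h1
  · have h1 := nonbase_ceq (M := MT (strOf (toI c))) ⟨b, hb⟩
    have h2 : Gd U (BP L (MT (strOf (toI (P j))))) (Om (L := L) (MT (strOf (toI c)))) := by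
      refine gd_Om hU hc hc g.symm fun {n} R t _ => ?_
      have h3 := hg R (fun k => g.symm (t k))
      simp only [Equiv.apply_symm_apply] at h3
      exact h3.symm
    have hne : Nonempty {z : MT (strOf (toI c)) // ¬ Base L (default : Fin 0 → _) z} :=
      ⟨⟨b, hb⟩⟩
    have hcb : Countable {z : MT (strOf (toI c)) // ¬ Base L (default : Fin 0 → _) z} :=
      inferInstance
    obtain ⟨e'⟩ : Nonempty (ℕ ≃ ℕ × {z : MT (strOf (toI c)) //
      ¬ Base L (default : Fin 0 → MT (strOf (toI c))) z}) := nonempty_equiv_of_countable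
    have h3 : GIso (toI (ofI (pull (Om (L := L) (MT (strOf (toI c)))) e')))
        (Om (L := L) (MT (strOf (toI c)))) := by
      rw [toI_ofI]
      exact ⟨e', fun i t => Iff.rfl⟩
    obtain ⟨n, hn⟩ := hf j _ (Gd.iso h3.symm h2) (e'.symm (0, ⟨b, hb⟩))
    have h4 : CEq (Om (L := L) (MT (strOf (toI c)))) (0, ⟨b, hb⟩)
        (toI (ofI (pull (Om (L := L) (MT (strOf (toI c)))) e'))) (e'.symm (0, ⟨b, hb⟩)) := by
      rw [toI_ofI]
      refine CEq.of_ciso (GIso.ciso e'.symm (fun i t => ?_) _)
      show _ ↔ Om (L := L) (MT (strOf (toI c))) i (fun k => e' (e'.symm (t k)))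
      simp only [Equiv.apply_symm_apply]
    refine ⟨e.symm (j, Sum.inl n), ?_⟩
    have h5 : fl (e.symm (j, Sum.inl n)) = f j n := by
      simp only [fl, Equiv.apply_symm_apply]
    rw [h5]
    exact h1.trans (h4.trans hn)

end

/-! ### Sentences -/

theorem sameT_iff {M N : Type} [L.Structure M] [L.Structure N] :
    SameT (L := L) (default : Fin 0 → M) (default : Fin 0 → N) ↔
      ∀ φ : L.Sentence, M ⊨ φ ↔ N ⊨ φ := by
  constructor
  · intro h φ
    have h1 := h (φ.relabel (Empty.elim : Empty → Fin 0))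
    rw [Formula.realize_relabel, Formula.realize_relabel] at h1
    rw [Sentence.Realize, Sentence.Realize]
    have e1 : (default : Fin 0 → M) ∘ (Empty.elim : Empty → Fin 0) = default :=
      Subsingleton.elim _ _
    have e2 : (default : Fin 0 → N) ∘ (Empty.elim : Empty → Fin 0) = default :=
      Subsingleton.elim _ _
    rwa [e1, e2] at h1
  · intro h φ
    have h1 := h (φ.relabel (fun i : Fin 0 => (i.elim0 : Empty)))
    rw [Sentence.Realize, Sentence.Realize, Formula.realize_relabel,
      Formula.realize_relabel] at h1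
    have e1 : (default : Empty → M) ∘ (fun i : Fin 0 => (i.elim0 : Empty)) = default :=
      Subsingleton.elim _ _
    have e2 : (default : Empty → N) ∘ (fun i : Fin 0 => (i.elim0 : Empty)) = default :=
      Subsingleton.elim _ _
    rwa [e1, e2] at h1

theorem meas_sentence [L.IsRelational] [Countable L.Symbols] (φ : L.Sentence) :
    MeasurableSet {c : Code (ar L) | MT (strOf (toI c)) ⊨ φ} := by
  have e : {c : Code (ar L) | MT (strOf (toI c)) ⊨ φ} = {c : Code (ar L) |
      @BoundedFormula.Realize L ℕ (strOf (toI c)) Empty 0 φ (fun e => e.elim)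
        (fun i => i.elim0)} := by
    ext c
    have h1 : (default : Empty → MT (strOf (toI c))) = fun e => e.elim := Subsingleton.elim _ _
    have h2 : (default : Fin 0 → MT (strOf (toI c))) = fun i => i.elim0 := Subsingleton.elim _ _
    show @BoundedFormula.Realize L (MT (strOf (toI c))) _ Empty 0 φ default default ↔ _
    rw [h1, h2]
    exact Iff.rfl
  rw [e]
  exact Pool.Agent.H623R2.VE.meas_realize (L := L) _ φ _

theorem meas_KU [L.IsRelational] [Countable L.Symbols] (U : Type) [L.Structure U] :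
    MeasurableSet (KU L U) := by
  have hc0 : Countable L.Sentence := countable_formula (L := L) Empty
  have e : KU L U = ⋂ φ : L.Sentence, {c : Code (ar L) | MT (strOf (toI c)) ⊨ φ ↔ U ⊨ φ} := by
    ext c
    simp only [mem_iInter]
    exact sameT_iff
  rw [e]
  refine MeasurableSet.iInter fun φ => measurableSet_setOfPred.2 ?_
  exact (measurableSet_setOfPred.1 (meas_sentence φ)).iff measurable_const

/-- The dichotomy for the models of a theory. -/
theorem theory_dich [L.IsRelational] [Countable L.Symbols] (T : L.Theory)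
    (HB : ∀ S₀ : L.Structure ℕ, MT S₀ ⊨ T → ∃ P : ℕ → L.Structure ℕ, ∀ S : L.Structure ℕ,
      (∀ φ : L.Sentence, MT S ⊨ φ ↔ MT S₀ ⊨ φ) → ∃ j, BIso L (MT S) (MT (P j))) :
    (∃ S : Set (Code (ar L)), S.Countable ∧ ∀ c : Code (ar L), MT (strOf (toI c)) ⊨ T →
      ∃ c' ∈ S, GIso (toI c) (toI c')) ∨
      Perf GIso {c : Code (ar L) | MT (strOf (toI c)) ⊨ T} := by
  classical
  have hcR : Countable (Σ n, L.Relations n) :=
    Function.Injective.countable (f := (Sum.inr : (Σ n, L.Relations n) → L.Symbols))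
      Sum.inr_injective
  have hc0 : Countable L.Sentence := countable_formula (L := L) Empty
  let K : Set (Code (ar L)) := {c | MT (strOf (toI c)) ⊨ T}
  have hK : MeasurableSet K := by
    have e : K = ⋂ φ ∈ T, {c : Code (ar L) | MT (strOf (toI c)) ⊨ φ} := by
      ext c
      simp only [mem_iInter]
      exact Theory.model_iff T
    rw [e]
    exact MeasurableSet.biInter (to_countable T) fun φ _ => meas_sentence φ
  by_cases hP : Perf GIso K
  · exact Or.inr hP
  left
  let Th : Code (ar L) → (L.Sentence → Bool) := fun c φ => decide (MT (strOf (toI c)) ⊨ φ)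
  have hTh : Measurable Th := by
    refine measurable_pi_lambda _ fun φ => measurable_to_bool ?_
    have e : (fun c : Code (ar L) => Th c φ) ⁻¹' {true} = {c | MT (strOf (toI c)) ⊨ φ} := by
      ext c
      simp [Th]
    rw [e]
    exact meas_sentence φ
  have hThE : ∀ c c', GIso (toI c) (toI c') → Th c = Th c' := by
    intro c c' h
    have h1 := sameT_iff.1 (giso_sameT (M := MT (strOf (toI c))) (N := MT (strOf (toI c'))) h)
    funext φ
    simp only [Th, decide_eq_decide]
    exact h1 φ
  have hrange : (range fun c : K => Th c.1).Countable := by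
    by_contra hc
    refine hP (Pool.Agent.H623R2.VE.perf_of_uncountable hK (ι := Unit) (fun _ c => Th c.1)
      (fun _ => hTh.comp measurable_subtype_coe) (fun c c' h _ => ⟨(), hThE _ _ h⟩)
      (fun h => hc (h.mono ?_)))
    rintro _ ⟨c, rfl⟩
    exact ⟨(), c, rfl⟩
  obtain ⟨G, hG, hG2⟩ := Pool.Agent.H623R2.VE.exists_reps (fun c : K => Th c.1) hrange
  -- the dichotomy for each completion
  have key : ∀ c₀ : K, ∃ S : Set (Code (ar L)), S.Countable ∧
      ∀ c : K, Th c₀.1 = Th c.1 → ∃ c' ∈ S, GIso (toI c.1) (toI c') := by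
    intro c₀
    have hne : Nonempty (MT (strOf (toI c₀.1))) := inferInstance
    let U := H968.Ult (MT (strOf (toI c₀.1)))
    have hU : Satd L U := satd_ult (MT (strOf (toI c₀.1)))
    have hNe : Nonempty U := ⟨H968.cls fun _ => Classical.arbitrary _⟩
    have hS : SameT (L := L) (default : Fin 0 → MT (strOf (toI c₀.1))) (default : Fin 0 → U) :=
      (sameT_diag (L := L) (MT (strOf (toI c₀.1))) (default : Fin 0 → _)).of_eq id
        (Subsingleton.elim _ _) (Subsingleton.elim _ _)
    have hKUK : KU L U ⊆ K := by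
      intro c hc
      have h1 := sameT_iff.1 (SameT.trans hc hS.symm)
      refine (Theory.model_iff T).2 fun φ hφ => (h1 φ).2 ?_
      exact (Theory.model_iff T).1 c₀.2 φ hφ
    obtain ⟨P, hP'⟩ := HB (strOf (toI c₀.1)) c₀.2
    rcases complete_dich U hU (meas_KU U) ⟨fun j => ofI (interpOf (P j)), fun c hc => by
      obtain ⟨j, hj⟩ := hP' (strOf (toI c)) (sameT_iff.1 (SameT.trans hc hS.symm))
      refine ⟨j, ?_⟩
      rw [toI_ofI]
      have e : strOf (interpOf (P j)) = P j := by
        have h0 : ∀ S S' : L.Structure ℕ, (∀ {n : ℕ} (R : L.Relations n) (t : Fin n → ℕ),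
            S.RelMap R t ↔ S'.RelMap R t) → S = S' := by
          intro S S' h
          ext n f t
          · exact isEmptyElim f
          · exact h f t
        exact h0 _ _ fun R t => Iff.rfl
      rw [e]
      exact hj⟩ with h | h
    · obtain ⟨S, hS1, hS2⟩ := h
      refine ⟨S, hS1, fun c hc => hS2 c.1 ?_⟩
      refine SameT.trans (sameT_iff.2 fun φ => ?_) hS
      have h1 := congrFun hc φ
      simp only [Th, decide_eq_decide] at h1
      exact h1.symm
    · exact (hP (h.mono hKUK)).elim
  choose S hS1 hS2 using key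
  refine ⟨⋃ c ∈ G, S c, hG.biUnion fun c _ => hS1 c, fun c hc => ?_⟩
  obtain ⟨c₀, hc₀, hcc⟩ := hG2 ⟨c, hc⟩
  obtain ⟨c', hc', h⟩ := hS2 c₀ ⟨c, hc⟩ hcc
  exact ⟨c', mem_iUnion₂.2 ⟨c₀, hc₀, hc'⟩, h⟩

end Pool.Agent.Hp8VC
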