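import Pool.Agent.Hp8VC.Surg
import Pool.Agent.H623R2.VE.FO

set_option autoImplicit false

/-!
The disjoint union of a fixed structure (the bounded part) and a variable one.
-/

namespace Pool.Agent.Hp8VC

open FirstOrder FirstOrder.Language
open Pool.Agent.H623R2.VE (Interp ar Conn Adj CIso CEq GIso Code toI ofI)

variable {L : FirstOrder.Language.{0, 0}}

/-- An embedding whose image is closed under witnesses is elementary. -/
theorem Elem.emb {W U : Type} [L.Structure W] [L.Structure U] [L.IsRelational] (e : W → U)
    (hinj : Function.Injective e)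
    (hrel : ∀ {n : ℕ} (R : L.Relations n) (t : Fin n → W),
      Structure.RelMap R (fun k => e (t k)) ↔ Structure.RelMap R t)
    (hE : Elem L (Set.range e)) : SameT (L := L) (id : W → W) e := by
  let f : W ↪[L] U :=
    { toFun := e
      inj' := hinj
      map_fun' := fun f => isEmptyElim f
      map_rel' := fun R t => hrel R t }
  let f' : W ↪ₑ[L] U := f.toElementaryEmbedding (by
    intro n φ x a h
    let g : Empty ⊕ Fin (n + 1) → Fin n ⊕ Unit := fun z => match z with
      | Sum.inl j => j.elim
      | Sum.inr j => Fin.lastCases (motive := fun _ => Fin n ⊕ Unit) (Sum.inr ())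
          (fun j => Sum.inl j) j
    have hg : ∀ b : U, (φ.toFormula.relabel g).Realize
        (Sum.elim (f ∘ x) fun _ : Unit => b) ↔
        φ.Realize default (Fin.snoc (f ∘ x) b : Fin (n + 1) → U) := by
      intro b
      rw [Formula.realize_relabel, BoundedFormula.realize_toFormula]
      have e1 : ((Sum.elim (f ∘ x) fun _ : Unit => b) ∘ g) ∘ Sum.inl = default :=
        Subsingleton.elim _ _
      have e2 : ((Sum.elim (f ∘ x) fun _ : Unit => b) ∘ g) ∘ Sum.inr =
          (Fin.snoc (f ∘ x) b : Fin (n + 1) → U) := by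
        funext z
        refine Fin.lastCases ?_ (fun j => ?_) z
        · simp [g]
        · simp [g]
      rw [e1, e2]
    obtain ⟨_, ⟨b, rfl⟩, hb⟩ := hE (Fin n) (f ∘ x) (fun k => ⟨x k, rfl⟩) (φ.toFormula.relabel g)
      ⟨a, (hg a).2 h⟩
    exact ⟨b, (hg _).1 hb⟩)
  intro φ
  exact (f'.map_formula φ id).symm

/-- Isomorphic structures. -/
theorem SameT.of_iso {M N : Type} [L.Structure M] [L.Structure N] [L.IsRelational] (g : M ≃ N)
    (hg : ∀ {n : ℕ} (R : L.Relations n) (t : Fin n → M),
      Structure.RelMap R t ↔ Structure.RelMap R (fun k => g (t k))) :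
    SameT (L := L) (id : M → M) g := by
  let e : M ≃[L] N :=
    { toEquiv := g
      map_fun' := fun f => isEmptyElim f
      map_rel' := fun R t => (hg R t).symm }
  intro φ
  exact (StrongHomClass.realize_formula e φ).symm

/-- The carrier of the join. -/
def JT {L : FirstOrder.Language.{0, 0}} (B : Type) {A : Type} (_Z : Interp (ar L) A) : Type :=
  B ⊕ A

section
variable [L.IsRelational] {B A A' : Type} [L.Structure B]

/-- The join of a structure and an interpretation: no relation holds between the two parts; the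
truth values of the relations of arity `0` are those of the second part. -/
instance (Z : Interp (ar L) A) : L.Structure (JT B Z) where
  funMap f := isEmptyElim f
  RelMap {n} R t := (0 < n ∧ ∃ s : Fin n → B, (t = fun k => Sum.inl (s k)) ∧
    Structure.RelMap R s) ∨ (∃ s : Fin n → A, (t = fun k => Sum.inr (s k)) ∧ Z ⟨n, R⟩ s)

theorem JT.rel (Z : Interp (ar L) A) {n : ℕ} (R : L.Relations n) (t : Fin n → JT B Z) :
    Structure.RelMap R t ↔ (0 < n ∧ ∃ s : Fin n → B, (t = fun k => Sum.inl (s k)) ∧
    Structure.RelMap R s) ∨ (∃ s : Fin n → A, (t = fun k => Sum.inr (s k)) ∧ Z ⟨n, R⟩ s) := Iff.rfl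

instance [Nonempty A] (Z : Interp (ar L) A) : Nonempty (JT B Z) := ⟨Sum.inr (Classical.arbitrary A)⟩

instance [Countable A] [Countable B] (Z : Interp (ar L) A) : Countable (JT B Z) :=
  inferInstanceAs (Countable (B ⊕ A))

/-- The join with `Z` looks like `U`, and its first part is the bounded part. -/
def Gd (U : Type) [L.Structure U] (B : Type) [L.Structure B] (Z : Interp (ar L) A) : Prop :=
  SameT (L := L) (default : Fin 0 → JT B Z) (default : Fin 0 → U) ∧
  ∀ x : JT B Z, Base L (default : Fin 0 → JT B Z) x ↔ ∃ b : B, x = Sum.inl b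

omit [L.IsRelational] in
theorem sameT_default {M N : Type} [L.Structure M] [L.Structure N] {ι : Type} {a : ι → M}
    {b : ι → N} (h : SameT (L := L) a b) :
    SameT (L := L) (Sum.elim (default : Fin 0 → M) a) (Sum.elim (default : Fin 0 → N) b) := by
  intro φ
  have h1 := h (φ.relabel (Sum.elim (fun i : Fin 0 => i.elim0) id))
  rw [Formula.realize_relabel, Formula.realize_relabel] at h1
  have e1 : a ∘ (Sum.elim (fun i : Fin 0 => i.elim0) id) = Sum.elim (default : Fin 0 → M) a := by
    funext z
    rcases z with z | z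
    · exact z.elim0
    · rfl
  have e2 : b ∘ (Sum.elim (fun i : Fin 0 => i.elim0) id) = Sum.elim (default : Fin 0 → N) b := by
    funext z
    rcases z with z | z
    · exact z.elim0
    · rfl
  rwa [e1, e2] at h1

theorem Gd.iso {U : Type} [L.Structure U] {Z : Interp (ar L) A} {Z' : Interp (ar L) A'}
    (h : GIso Z Z') (hZ : Gd U B Z) : Gd U B Z' := by
  obtain ⟨g, hg⟩ := h
  let G : JT B Z ≃ JT B Z' := Equiv.sumCongr (Equiv.refl B) g
  have hG : ∀ {n : ℕ} (R : L.Relations n) (t : Fin n → JT B Z),
      Structure.RelMap R t ↔ Structure.RelMap R (fun k => G (t k)) := by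
    intro n R t
    rw [JT.rel, JT.rel]
    refine or_congr (and_congr_right fun _ => ?_) ?_
    · constructor
      · rintro ⟨s, rfl, hs⟩
        exact ⟨s, rfl, hs⟩
      · rintro ⟨s, h1, hs⟩
        refine ⟨s, funext fun k => G.injective ?_, hs⟩
        exact congrFun h1 k
    · constructor
      · rintro ⟨s, rfl, hs⟩
        exact ⟨fun k => g (s k), rfl, (hg ⟨n, R⟩ s).1 hs⟩
      · rintro ⟨s, h1, hs⟩
        refine ⟨fun k => g.symm (s k), funext fun k => G.injective ?_, ?_⟩
        · refine (congrFun h1 k).trans ?_
          show (Sum.inr (s k) : B ⊕ A') = Sum.inr (g (g.symm (s k)))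
          rw [g.apply_symm_apply]
        · rw [hg]
          simpa using hs
  have h1 := SameT.of_iso G hG
  refine ⟨?_, fun x => ?_⟩
  · exact (h1.symm.of_eq (fun i : Fin 0 => i.elim0) (Subsingleton.elim _ _)
      (Subsingleton.elim _ _)).trans hZ.1
  · obtain ⟨y, rfl⟩ := G.surjective x
    have h2 := (sameT_default h1).base y
    rw [show G y = (G : JT B Z → JT B Z') y from rfl, ← h2]
    refine (hZ.2 y).trans ?_
    constructor
    · rintro ⟨b, rfl⟩
      exact ⟨b, rfl⟩
    · rintro ⟨b, hb⟩
      exact ⟨b, G.injective hb⟩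

/-- Infinitely many copies of the part outside the bounded part. -/
def Om (N : Type) [L.Structure N] :
    Interp (ar L) (ℕ × {z : N // ¬ Base L (default : Fin 0 → N) z}) :=
  fun i t => (∀ k l, (t k).1 = (t l).1) ∧ Structure.RelMap i.2 fun k => (t k).2.1

omit [L.IsRelational] in
/-- Elements in a common tuple. -/
theorem ec_of_rel {M : Type} [L.Structure M] {m : ℕ} (R : L.Relations m) (t : Fin m → M)
    (h : Structure.RelMap R t) (k l : Fin m) : Ec L (default : Fin 0 → M) (t k) (t l) :=
  ⟨{⟨m, R⟩}, 1, t k, rfl, Or.inr ⟨by simp, by simp, ⟨m, R⟩, Finset.mem_singleton_self _, t, h,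
    ⟨k, rfl⟩, ⟨l, rfl⟩⟩⟩

/-- The join of the bounded part of a model with infinitely many copies of the rest of another
model is a model. -/
theorem gd_Om {U : Type} [L.Structure U] [Nonempty U] (hU : Satd L U) [Countable L.Symbols]
    {M : Type} [L.Structure M] [Nonempty M] [Countable M]
    {N : Type} [L.Structure N] [Countable N]
    (hM : SameT (L := L) (default : Fin 0 → M) (default : Fin 0 → U))
    (hN : SameT (L := L) (default : Fin 0 → N) (default : Fin 0 → U))
    (h : B ≃ {x : M // Base L (default : Fin 0 → M) x})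
    (hh : ∀ {n : ℕ} (R : L.Relations n) (t : Fin n → B), 0 < n → (Structure.RelMap R t ↔
      Structure.RelMap R fun k => (h (t k)).1)) : Gd U B (Om (L := L) N) := by
  classical
  obtain ⟨f, hf⟩ := ext_tuple hU hM (id : M → M)
  obtain ⟨G, hG1, hG2⟩ := far_copies hU hN
  have hE := surg hU hM hN f hf G hG1 hG2
  have hfb : ∀ x, Base L (default : Fin 0 → M) x ↔ Base L (default : Fin 0 → U) (f x) :=
    fun x => hf.base x
  have hGb : ∀ k z, Base L (default : Fin 0 → N) z ↔ Base L (default : Fin 0 → U) (G k z) := by
    intro k z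
    obtain ⟨g, hg, hg2⟩ := hG1 k z
    rw [hg2 z (Ec.refl _ _)]
    exact hg.base z
  let e : JT B (Om (L := L) N) → U :=
    Sum.elim (fun b => f (h b).1) (fun q => G q.1 q.2.1)
  have he1 : ∀ b : B, Base L (default : Fin 0 → U) (e (Sum.inl b)) := fun b =>
    (hfb _).1 (h b).2
  have he2 : ∀ q : ℕ × {z : N // ¬ Base L (default : Fin 0 → N) z},
      ¬ Base L (default : Fin 0 → U) (e (Sum.inr q)) := fun q hq => q.2.2 ((hGb _ _).2 hq)
  have hfrel : ∀ {n : ℕ} (R : L.Relations n) (t : Fin n → M),
      Structure.RelMap R t ↔ Structure.RelMap R fun k => f (t k) := by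
    intro n R t
    have h1 := hf.comp (fun k => Sum.inr (t k) : Fin n → Fin 0 ⊕ M)
      (R.formula fun k => Term.var k)
    rw [Formula.realize_rel, Formula.realize_rel] at h1
    exact h1
  have hgrel : ∀ g : N → U, SameT (L := L) (Sum.elim (default : Fin 0 → N) (id : N → N))
      (Sum.elim (default : Fin 0 → U) g) → ∀ {n : ℕ} (R : L.Relations n) (t : Fin n → N),
      Structure.RelMap R t ↔ Structure.RelMap R fun k => g (t k) := by
    intro g hg n R t
    have h1 := hg.comp (fun k => Sum.inr (t k) : Fin n → Fin 0 ⊕ N)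
      (R.formula fun k => Term.var k)
    rw [Formula.realize_rel, Formula.realize_rel] at h1
    exact h1
  have hinj : Function.Injective e := by
    rintro (b | q) (b' | q') hbq
    · have h1 : (h b).1 = (h b').1 := (hf.eq_iff (Sum.inr _) (Sum.inr _)).2 hbq
      rw [h.injective (Subtype.ext h1)]
    · have h1 := he1 b
      rw [hbq] at h1
      exact (he2 q' h1).elim
    · have h1 := he1 b'
      rw [← hbq] at h1
      exact (he2 q h1).elim
    · obtain ⟨k, z⟩ := q
      obtain ⟨k', z'⟩ := q'
      have h0 : G k z.1 = G k' z'.1 := hbq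
      have h1 : Ec L (default : Fin 0 → U) (G k z.1) (G k' z'.1) := by
        rw [h0]
        exact Ec.refl _ _
      obtain ⟨rfl, h2⟩ := hG2 k k' z.1 z'.1 z.2 h1
      obtain ⟨g, hg, hg2⟩ := hG1 k z.1
      rw [hg2 _ (Ec.refl _ _), hg2 _ h2] at h0
      have h3 : z.1 = z'.1 := (hg.eq_iff (Sum.inr _) (Sum.inr _)).2 h0
      rw [Subtype.ext h3]
  have hrel : ∀ {n : ℕ} (R : L.Relations n) (t : Fin n → JT B (Om (L := L) N)),
      Structure.RelMap R (fun k => e (t k)) ↔ Structure.RelMap R t := by
    intro m R t
    rw [JT.rel]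
    rcases Nat.eq_zero_or_pos m with rfl | hm
    · have h1 : Structure.RelMap R (fun k => e (t k)) ↔
          Structure.RelMap R (default : Fin 0 → N) := by
        have h2 := hN (R.formula fun k => Term.var k)
        rw [Formula.realize_rel, Formula.realize_rel] at h2
        have e1 : (fun k => e (t k)) = fun i => (Term.var i : L.Term (Fin 0)).realize
            (default : Fin 0 → U) := Subsingleton.elim _ _
        have e2 : (default : Fin 0 → N) = fun i => (Term.var i : L.Term (Fin 0)).realize
            (default : Fin 0 → N) := Subsingleton.elim _ _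
        rw [e1, e2]
        exact h2.symm
      rw [h1]
      constructor
      · intro h2
        refine Or.inr ⟨fun k => k.elim0, Subsingleton.elim _ _, fun k => k.elim0, ?_⟩
        have e1 : (fun k : Fin 0 => ((k.elim0 : ℕ × {z : N //
            ¬ Base L (default : Fin 0 → N) z})).2.1) = (default : Fin 0 → N) :=
          Subsingleton.elim _ _
        rw [e1]
        exact h2
      · rintro (⟨h2, _⟩ | ⟨s, _, _, h2⟩)
        · exact absurd h2 (lt_irrefl 0)
        · have e1 : (fun k => (s k).2.1) = (default : Fin 0 → N) := Subsingleton.elim _ _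
          simp only at h2
          rw [e1] at h2
          exact h2
    · constructor
      · intro h1
        have h2 : ∀ k, Ec L (default : Fin 0 → U) (e (t ⟨0, hm⟩)) (e (t k)) := fun k =>
          ec_of_rel R _ h1 ⟨0, hm⟩ k
        rcases h0 : t ⟨0, hm⟩ with b | q
        · have h3 : ∀ k, ∃ b : B, t k = Sum.inl b := by
            intro k
            rcases hk : t k with b' | q
            · exact ⟨b', rfl⟩
            · have h4 := h2 k
              rw [hk, h0] at h4
              exact (he2 q ((he1 b).of_ec h4)).elim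
          choose s hs using h3
          refine Or.inl ⟨hm, s, funext hs, ?_⟩
          rw [hh R s hm, hfrel]
          have e1 : (fun k => e (t k)) = fun k => f (h (s k)).1 := by
            funext k
            rw [hs k]
            rfl
          rw [← e1]
          exact h1
        · have h3 : ∀ k, ∃ q : ℕ × {z : N // ¬ Base L (default : Fin 0 → N) z},
              t k = Sum.inr q := by
            intro k
            rcases hk : t k with b' | q'
            · have h4 := h2 k
              rw [hk, h0] at h4
              exact (he2 q ((he1 b').of_ec h4.symm)).elim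
            · exact ⟨q', rfl⟩
          choose s hs using h3
          have h4 : ∀ k, q.1 = (s k).1 ∧ Ec L (default : Fin 0 → N) q.2.1 (s k).2.1 := by
            intro k
            have h5 := h2 k
            rw [hs k, h0] at h5
            exact hG2 _ _ _ _ q.2.2 h5
          refine Or.inr ⟨s, funext hs, fun k l => (h4 k).1.symm.trans (h4 l).1, ?_⟩
          obtain ⟨g, hg, hg2⟩ := hG1 q.1 q.2.1
          show Structure.RelMap R fun k => (s k).2.1
          rw [hgrel g hg]
          have e1 : (fun k => e (t k)) = fun k => g (s k).2.1 := by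
            funext k
            rw [hs k, ← hg2 _ (h4 k).2, (h4 k).1]
            rfl
          rw [← e1]
          exact h1
      · rintro (⟨_, s, rfl, hs⟩ | ⟨s, rfl, hs1, hs⟩)
        · rw [hh R s hm, hfrel] at hs
          exact hs
        · have h4 : ∀ k, Ec L (default : Fin 0 → N) (s ⟨0, hm⟩).2.1 (s k).2.1 := fun k =>
            ec_of_rel R _ hs ⟨0, hm⟩ k
          obtain ⟨g, hg, hg2⟩ := hG1 (s ⟨0, hm⟩).1 (s ⟨0, hm⟩).2.1
          replace hs : Structure.RelMap R fun k => (s k).2.1 := hs
          rw [hgrel g hg] at hs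
          have e1 : (fun k => e (Sum.inr (s k))) = fun k => g (s k).2.1 := by
            funext k
            rw [← hg2 _ (h4 k), hs1 ⟨0, hm⟩ k]
            rfl
          rw [e1]
          exact hs
  have hrange : Set.range e = ({u | ∃ x, Base L (default : Fin 0 → M) x ∧ f x = u} ∪
      {u | ∃ k z, ¬ Base L (default : Fin 0 → N) z ∧ G k z = u}) := by
    ext u
    constructor
    · rintro ⟨b | q, rfl⟩
      · exact Or.inl ⟨(h b).1, (h b).2, rfl⟩
      · exact Or.inr ⟨q.1, q.2.1, q.2.2, rfl⟩
    · rintro (⟨x, hx, rfl⟩ | ⟨k, z, hz, rfl⟩)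
      · refine ⟨Sum.inl (h.symm ⟨x, hx⟩), ?_⟩
        show f (h (h.symm ⟨x, hx⟩)).1 = f x
        rw [h.apply_symm_apply]
      · exact ⟨Sum.inr (k, ⟨z, hz⟩), rfl⟩
  have h1 := Elem.emb e hinj hrel (by rw [hrange]; exact hE)
  refine ⟨h1.of_eq (fun i : Fin 0 => i.elim0) (Subsingleton.elim _ _) (Subsingleton.elim _ _),
    fun x => ?_⟩
  have h2 := (sameT_default h1).base x
  rw [show (id x : JT B (Om (L := L) N)) = x from rfl] at h2
  rw [h2]
  constructor
  · intro h3
    rcases x with b | q
    · exact ⟨b, rfl⟩
    · exact (he2 q h3).elim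
  · rintro ⟨b, rfl⟩
    exact he1 b

end

end Pool.Agent.Hp8VC
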