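import Mathlib

set_option autoImplicit false

/-!
Bounded sets, bounded parts, locally finite structures; the dichotomy of Vaught's conjecture.
-/

namespace Pool.Agent.Hp8VC.LFS

open FirstOrder FirstOrder.Language

/-- The distance of `x` and `y` is at most `r` in the Gaifman graph of the reduct to the finite set
`F` of relation symbols: there is a walk `x = z₀, …, z_r = y` such that consecutive elements are
equal or occur together in a tuple of a relation in `F`. -/
def Near {L : FirstOrder.Language.{0, 0}} {M : Type} [L.Structure M]
    (F : Finset (Σ m, L.Relations m)) : ℕ → M → M → Prop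
  | 0, x, y => x = y
  | r + 1, x, y => ∃ z, Near F r x z ∧ (z = y ∨ ∃ R ∈ F, ∃ t : Fin R.1 → M,
      Structure.RelMap R.2 t ∧ z ∈ Set.range t ∧ y ∈ Set.range t)

/-- A set is bounded if it is covered by finitely many balls of some radius `r` in the Gaifman
graph of the reduct to some finite set `F` of relation symbols. -/
def Bounded (L : FirstOrder.Language.{0, 0}) {M : Type} [L.Structure M] (X : Set M) : Prop :=
  ∃ (F : Finset (Σ m, L.Relations m)) (r : ℕ) (C : Finset M), ∀ x ∈ X, ∃ c ∈ C, Near F r c x

/-- The set defined by a formula in one variable, without parameters. -/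
def Def {L : FirstOrder.Language.{0, 0}} (M : Type) [L.Structure M] (φ : L.Formula Unit) : Set M :=
  {x | φ.Realize fun _ => x}

/-- The bounded part: the union of all bounded sets that are definable without parameters. -/
def BoundedPart (L : FirstOrder.Language.{0, 0}) (M : Type) [L.Structure M] : Set M :=
  {x | ∃ φ : L.Formula Unit, Bounded L (Def M φ) ∧ x ∈ Def M φ}

/-- The bounded parts, with the relations restricted to them, are isomorphic. -/
def SameBoundedPart (L : FirstOrder.Language.{0, 0}) (M N : Type) [L.Structure M]
    [L.Structure N] : Prop :=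
  ∃ g : BoundedPart L M ≃ BoundedPart L N, ∀ (m : ℕ) (R : L.Relations m)
    (t : Fin m → BoundedPart L M), Structure.RelMap R (fun k => (t k : M)) ↔
      Structure.RelMap R (fun k => (g (t k) : N))

/-- Each element occurs in only finitely many tuples of each relation. -/
def LocallyFinite (L : FirstOrder.Language.{0, 0}) (M : Type) [L.Structure M] : Prop :=
  ∀ (m : ℕ) (R : L.Relations m) (x : M),
    {t : Fin m → M | Structure.RelMap R t ∧ x ∈ Set.range t}.Finite

/-- The dichotomy for the models of `T` on `ℕ`: they fall into countably many isomorphism classes,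
or there is a continuous map from the Cantor space to the space of the models of `T` on `ℕ` with
pairwise non-isomorphic values. -/
def Dichotomy {L : FirstOrder.Language.{0, 0}} (T : L.Theory) : Prop :=
  (∃ g : ℕ → L.Structure ℕ, ∀ S : L.Structure ℕ, @Theory.Model L ℕ S T →
    ∃ n : ℕ, Nonempty (@FirstOrder.Language.Equiv L ℕ ℕ S (g n))) ∨
  (∃ f : (ℕ → Bool) → L.Structure ℕ,
    (∀ x : ℕ → Bool, @Theory.Model L ℕ (f x) T) ∧
    (∀ x y : ℕ → Bool, Nonempty (@FirstOrder.Language.Equiv L ℕ ℕ (f x) (f y)) → x = y) ∧
    (∀ (m : ℕ) (R : L.Relations m) (a : Fin m → ℕ),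
      IsClopen {x : ℕ → Bool | @Structure.RelMap L ℕ (f x) m R a}))

end Pool.Agent.Hp8VC.LFS
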