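import Pool.Agent.Hp8VC.LocFin
import Pool.Agent.Hp8VC.LFDefs

set_option autoImplicit false

/-!
The three cases of the theorem on bounded parts.
-/

namespace Pool.Agent.Hp8VC.LFS

open FirstOrder FirstOrder.Language

theorem near_iff {L : FirstOrder.Language.{0, 0}} {M : Type} [L.Structure M]
    (F : Finset (Σ m, L.Relations m)) (r : ℕ) (x y : M) :
    Near F r x y ↔ Hp8VC.Near (default : Fin 0 → M) F r x y := by
  induction r generalizing y with
  | zero => exact Iff.rfl
  | succ r ih =>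
    refine exists_congr fun z => and_congr (ih z) (or_congr Iff.rfl ?_)
    constructor
    · intro h
      exact ⟨by simp, by simp, h⟩
    · rintro ⟨_, _, h⟩
      exact h

theorem bounded_iff {L : FirstOrder.Language.{0, 0}} {M : Type} [L.Structure M]
    (φ : L.Formula Unit) : Bounded L (Def M φ) ↔
      Hp8VC.Bd (default : Fin 0 → M) (φ.relabel (Sum.inr : Unit → Fin 0 ⊕ Unit)) := by
  have h : ∀ x : M, (φ.relabel (Sum.inr : Unit → Fin 0 ⊕ Unit)).Realize
      (Sum.elim default fun _ => x) ↔ x ∈ Def M φ := by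
    intro x
    rw [Formula.realize_relabel]
    exact Iff.rfl
  simp only [Bounded, Hp8VC.Bd, h, near_iff]

theorem part_iff {L : FirstOrder.Language.{0, 0}} {M : Type} [L.Structure M] (x : M) :
    x ∈ BoundedPart L M ↔ Hp8VC.Base L (default : Fin 0 → M) x := by
  constructor
  · rintro ⟨φ, h1, h2⟩
    refine ⟨φ.relabel (Sum.inr : Unit → Fin 0 ⊕ Unit), ?_, (bounded_iff φ).1 h1⟩
    rw [Formula.realize_relabel]
    exact h2
  · rintro ⟨φ, h1, h2⟩
    let φ' : L.Formula Unit := φ.relabel (Sum.elim (fun i : Fin 0 => i.elim0) id)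
    have h3 : ∀ x : M, x ∈ Def M φ' ↔ φ.Realize (Sum.elim default fun _ => x) := by
      intro x
      show (φ.relabel _).Realize _ ↔ _
      rw [Formula.realize_relabel]
      have e : (fun _ : Unit => x) ∘ (Sum.elim (fun i : Fin 0 => i.elim0) id) =
          Sum.elim (default : Fin 0 → M) fun _ => x := by
        funext z
        rcases z with z | z
        · exact z.elim0
        · rfl
      rw [e]
    refine ⟨φ', (bounded_iff φ').2 (h2.mono fun x hx => ?_), (h3 x).2 h1⟩
    rw [Formula.realize_relabel] at hx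
    exact (h3 x).1 hx

theorem same_iff {L : FirstOrder.Language.{0, 0}} {M N : Type} [L.Structure M] [L.Structure N]
    (h : SameBoundedPart L M N) : Hp8VC.BIso L M N := by
  obtain ⟨g, hg⟩ := h
  let eM : Hp8VC.BP L M ≃ BoundedPart L M := Equiv.subtypeEquivRight fun x => (part_iff x).symm
  let eN : BoundedPart L N ≃ Hp8VC.BP L N := Equiv.subtypeEquivRight fun x => part_iff x
  exact ⟨(eM.trans g).trans eN, fun {m} R t => hg m R fun k => eM (t k)⟩

theorem dich {L : FirstOrder.Language.{0, 0}} [L.IsRelational] [Countable L.Symbols]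
    (T : L.Theory) (HB : ∀ S₀ : L.Structure ℕ, @Theory.Model L ℕ S₀ T →
      ∃ P : ℕ → L.Structure ℕ, ∀ S : L.Structure ℕ,
      @ElementarilyEquivalent L ℕ ℕ S S₀ →
        ∃ j, Hp8VC.BIso L (Hp8VC.MT S) (Hp8VC.MT (P j))) : Dichotomy T := by
  have hext : ∀ S : L.Structure ℕ, H623R2.VE.strOf (H623R2.VE.interpOf S) = S := by
    intro S
    have h0 : ∀ S S' : L.Structure ℕ, (∀ {n : ℕ} (R : L.Relations n) (t : Fin n → ℕ),
        S.RelMap R t ↔ S'.RelMap R t) → S = S' := by
      intro S S' h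
      ext n f t
      · exact isEmptyElim f
      · exact h f t
    exact h0 _ _ fun R t => Iff.rfl
  rcases Hp8VC.theory_dich T (fun S₀ h₀ => by
    obtain ⟨P, hP⟩ := HB S₀ h₀
    refine ⟨P, fun S hS => hP S ?_⟩
    exact (@elementarilyEquivalent_iff L ℕ ℕ S S₀).2 hS) with ⟨C, hC, hC2⟩ | ⟨f, h1, h2, h3⟩
  · left
    have hex : ∃ c : ℕ → H623R2.VE.Code (H623R2.VE.ar L), C ⊆ Set.range c := by
      rcases C.eq_empty_or_nonempty with h | h
      · exact ⟨fun _ => fun _ _ => false, by rw [h]; exact Set.empty_subset _⟩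
      · obtain ⟨c, hc⟩ := hC.exists_eq_range h
        exact ⟨c, hc.le⟩
    obtain ⟨c, hc⟩ := hex
    refine ⟨fun n => H623R2.VE.strOf (H623R2.VE.toI (c n)), fun S hS => ?_⟩
    obtain ⟨c', hc', h⟩ := hC2 (H623R2.VE.ofI (H623R2.VE.interpOf S)) (by
      rw [H623R2.VE.toI_ofI, hext]
      exact hS)
    obtain ⟨n, rfl⟩ := hc hc'
    refine ⟨n, ?_⟩
    rw [H623R2.VE.toI_ofI, H623R2.VE.giso_riso, hext] at h
    exact H623R2.VE.RIso.iff.1 h
  · right
    refine ⟨fun x => H623R2.VE.strOf (H623R2.VE.toI (f x)), h2, fun x y h => ?_,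
      fun m R a => ?_⟩
    · exact h3 x y (H623R2.VE.giso_riso.2 (H623R2.VE.RIso.iff.2 h))
    · have h4 : Continuous fun x => f x ⟨m, R⟩ a :=
        (continuous_apply a).comp ((continuous_apply (⟨m, R⟩ : Σ n, L.Relations n)).comp h1)
      exact (isClopen_discrete {true}).preimage h4

theorem main (L : FirstOrder.Language.{0, 0}) [L.IsRelational] [Countable L.Symbols]
    (T : L.Theory)
    (h : ∀ S₀ : L.Structure ℕ, @Theory.Model L ℕ S₀ T →
      (∃ P : ℕ → L.Structure ℕ, ∀ S : L.Structure ℕ, @ElementarilyEquivalent L ℕ ℕ S S₀ →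
        ∃ j, @SameBoundedPart L ℕ ℕ S (P j)) ∨
      (∃ (N : Type) (SN : L.Structure N), @ElementarilyEquivalent L N ℕ SN S₀ ∧
        ∀ φ : L.Formula Unit, Bounded L (Def N φ) → (Def N φ).Finite) ∨
      (∃ (N : Type) (SN : L.Structure N), @ElementarilyEquivalent L N ℕ SN S₀ ∧
        LocallyFinite L N)) : Dichotomy T := by
  have h2 : ∀ S₀ : L.Structure ℕ, (∃ (N : Type) (SN : L.Structure N),
      @ElementarilyEquivalent L N ℕ SN S₀ ∧
        ∀ φ : L.Formula Unit, Bounded L (Def N φ) → (Def N φ).Finite) →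
      ∃ P : ℕ → L.Structure ℕ, ∀ S : L.Structure ℕ,
      @ElementarilyEquivalent L ℕ ℕ S S₀ → ∃ j, Hp8VC.BIso L (Hp8VC.MT S) (Hp8VC.MT (P j)) := by
    intro S₀ h
    refine ⟨fun _ => S₀, fun S hS => ⟨0, ?_⟩⟩
    obtain ⟨N, SN, hN, hfin⟩ := h
    have hN' : ∀ φ : L.Sentence, N ⊨ φ ↔ Hp8VC.MT S₀ ⊨ φ :=
      (@elementarilyEquivalent_iff L N ℕ SN S₀).1 hN
    have hne : Nonempty N := by
      let ψ : L.Sentence := Formula.iExs Unit (Term.equal (Term.var (Sum.inr ()))
        (Term.var (Sum.inr ())))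
      have h0 : Hp8VC.MT S₀ ⊨ ψ := by
        rw [Sentence.Realize, Formula.realize_iExs]
        exact ⟨fun _ => (0 : ℕ), rfl⟩
      have h1 := (hN' ψ).2 h0
      rw [Sentence.Realize, Formula.realize_iExs] at h1
      obtain ⟨i, _⟩ := h1
      exact ⟨i ()⟩
    refine Hp8VC.biso_of_fin (S₀ := N) (M := Hp8VC.MT S) (N := Hp8VC.MT S₀) ?_ ?_ ?_
    · intro φ hφ
      let φ' : L.Formula Unit := φ.relabel (Sum.elim (fun i : Fin 0 => i.elim0) id)
      have h3 : ∀ x : N, x ∈ Def N φ' ↔ φ.Realize (Sum.elim default fun _ => x) := by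
        intro x
        show (φ.relabel _).Realize _ ↔ _
        rw [Formula.realize_relabel]
        have e : (fun _ : Unit => x) ∘ (Sum.elim (fun i : Fin 0 => i.elim0) id) =
            Sum.elim (default : Fin 0 → N) fun _ => x := by
          funext z
          rcases z with z | z
          · exact z.elim0
          · rfl
        rw [e]
      refine (hfin φ' ((bounded_iff φ').2 (hφ.mono fun x hx => ?_))).subset fun x hx => (h3 x).2 hx
      rw [Formula.realize_relabel] at hx
      exact (h3 x).1 hx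
    · intro φ
      exact ((@elementarilyEquivalent_iff L ℕ ℕ S S₀).1 hS φ).trans (hN' φ).symm
    · intro φ
      exact (hN' φ).symm
  refine dich T fun S₀ h₀ => ?_
  rcases h S₀ h₀ with ⟨P, hP⟩ | h1 | ⟨N, SN, hN, hLF⟩
  · refine ⟨P, fun S hS => ?_⟩
    obtain ⟨j, hj⟩ := hP S hS
    exact ⟨j, same_iff (M := Hp8VC.MT S) (N := Hp8VC.MT (P j)) hj⟩
  · exact h2 S₀ h1
  · refine h2 S₀ ⟨N, SN, hN, fun φ hφ => ?_⟩
    have h3 := Hp8VC.LF.fin (L := L) hLF (default : Fin 0 → N) _ ((bounded_iff φ).1 hφ)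
    refine h3.subset fun x hx => ?_
    show (φ.relabel _).Realize _
    rw [Formula.realize_relabel]
    exact hx

end Pool.Agent.Hp8VC.LFS
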