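import Pool.Agent.Hp8VC.Dich

set_option autoImplicit false

/-!
Structures in which every bounded definable set is finite; locally finite structures.
-/

namespace Pool.Agent.Hp8VC

open FirstOrder FirstOrder.Language Set

variable {L : FirstOrder.Language.{0, 0}} {n : ℕ}

theorem BIso.symm {M N : Type} [L.Structure M] [L.Structure N] (h : BIso L M N) : BIso L N M := by
  obtain ⟨g, hg⟩ := h
  refine ⟨g.symm, fun {n} R t => ?_⟩
  have h1 := hg R (fun k => g.symm (t k))
  simp only [Equiv.apply_symm_apply] at h1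
  exact h1.symm

theorem BIso.trans {M N K : Type} [L.Structure M] [L.Structure N] [L.Structure K]
    (h : BIso L M N) (h' : BIso L N K) : BIso L M K := by
  obtain ⟨g, hg⟩ := h
  obtain ⟨g', hg'⟩ := h'
  exact ⟨g.trans g', fun {n} R t => (hg R t).trans (hg' R fun k => g (t k))⟩

/-- The formula which says that `φ` has at most `k` solutions, given by the tuple `c`. -/
theorem cov_point {M : Type} [L.Structure M] (p : Fin n → M) (φ : L.Formula (Fin n ⊕ Unit))
    (h : {x : M | φ.Realize (Sum.elim p fun _ => x)}.Finite) :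
    ∃ (k : ℕ) (c : Fin k → M), ∀ x : M, φ.Realize (Sum.elim p fun _ => x) →
      ∃ i, Near p (∅ : Finset (Σ l, L.Relations l)) 0 (c i) x := by
  classical
  refine ⟨h.toFinset.card, fun i => (h.toFinset.equivFin.symm i).1, fun x hx => ?_⟩
  refine ⟨h.toFinset.equivFin ⟨x, h.mem_toFinset.2 hx⟩, ?_⟩
  show (h.toFinset.equivFin.symm (h.toFinset.equivFin ⟨x, h.mem_toFinset.2 hx⟩)).1 = x
  rw [Equiv.symm_apply_apply]

theorem fin_transfer {M N : Type} [L.Structure M] [L.Structure N] [Nonempty M] [Nonempty N]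
    {p : Fin n → M} {q : Fin n → N} (h : SameT (L := L) p q) (φ : L.Formula (Fin n ⊕ Unit))
    (hf : {x : M | φ.Realize (Sum.elim p fun _ => x)}.Finite) :
    {x : N | φ.Realize (Sum.elim q fun _ => x)}.Finite := by
  obtain ⟨k, c, hc⟩ := cov_point p φ hf
  obtain ⟨χ, hχ⟩ := exists_cov φ ∅ 0 k
  obtain ⟨ψ, hψ⟩ := exq χ
  have h1 : ψ.Realize p := (hψ M p).2 ⟨c, (hχ M p c).2 hc⟩
  obtain ⟨w, hw⟩ := (hψ N q).1 ((h ψ).1 h1)
  have h2 := (hχ N q w).1 hw
  refine (finite_range w).subset fun x hx => ?_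
  obtain ⟨i, hi⟩ := h2 x hx
  exact ⟨i, hi⟩

theorem biso_U {U : Type} [L.Structure U] [Nonempty U] (hU : Satd L U) {M : Type} [L.Structure M]
    [Nonempty M] [Countable M] (hM : SameT (L := L) (default : Fin 0 → M) (default : Fin 0 → U))
    (hfin : ∀ φ : L.Formula (Fin 0 ⊕ Unit), Bd (default : Fin 0 → U) φ →
      {x : U | φ.Realize (Sum.elim default fun _ => x)}.Finite) : BIso L M U := by
  obtain ⟨f, hf⟩ := ext_tuple hU hM (id : M → M)
  have hb : ∀ x, Base L (default : Fin 0 → M) x ↔ Base L (default : Fin 0 → U) (f x) :=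
    fun x => hf.base x
  have hinj : Function.Injective f := fun x y h => (hf.eq_iff (Sum.inr x) (Sum.inr y)).2 h
  have hsurj : ∀ u, Base L (default : Fin 0 → U) u → ∃ x, f x = u := by
    rintro u ⟨φ, hφ, hbd⟩
    obtain ⟨k, c, hc⟩ := cov_point (default : Fin 0 → U) φ (hfin φ hbd)
    obtain ⟨χ, hχ⟩ := exists_cov φ ∅ 0 k
    obtain ⟨ψ, hψ⟩ := exq χ
    have h1 : ψ.Realize (default : Fin 0 → M) := (hM ψ).2 ((hψ U _).2 ⟨c, (hχ U _ c).2 hc⟩)
    obtain ⟨w, hw⟩ := (hψ M _).1 h1
    have h2 : χ.Realize (Sum.elim (default : Fin 0 → U) (f ∘ w)) :=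
      (hf.of_eq (Sum.map id w) (by
        funext z
        rcases z with z | z
        · exact z.elim0
        · rfl) (by
        funext z
        rcases z with z | z
        · exact z.elim0
        · rfl) χ).1 hw
    obtain ⟨i, hi⟩ := (hχ U _ (f ∘ w)).1 h2 u hφ
    exact ⟨w i, hi⟩
  refine ⟨Equiv.ofBijective (fun x => ⟨f x.1, (hb x.1).1 x.2⟩) ⟨fun x y h =>
    Subtype.ext (hinj (congrArg Subtype.val h)), fun u => ?_⟩, fun {n} R t => ?_⟩
  · obtain ⟨x, hx⟩ := hsurj u.1 u.2
    have hxB : Base L (default : Fin 0 → M) x := (hb x).2 (by rw [hx]; exact u.2)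
    exact ⟨⟨x, hxB⟩, Subtype.ext hx⟩
  · have h1 := hf.comp (fun k => Sum.inr (t k).1 : Fin n → Fin 0 ⊕ M)
      (R.formula fun k => Term.var k)
    rw [Formula.realize_rel, Formula.realize_rel] at h1
    exact h1

/-- If every bounded definable set of a structure is finite, then all the structures with the same
theory have the same bounded part. -/
theorem biso_of_fin [Countable L.Symbols] {S₀ : Type} [L.Structure S₀] [Nonempty S₀]
    (hfin : ∀ φ : L.Formula (Fin 0 ⊕ Unit), Bd (default : Fin 0 → S₀) φ →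
      {x : S₀ | φ.Realize (Sum.elim default fun _ => x)}.Finite)
    {M N : Type} [L.Structure M] [L.Structure N] [Nonempty M] [Nonempty N] [Countable M]
    [Countable N] (hM : ∀ φ : L.Sentence, M ⊨ φ ↔ S₀ ⊨ φ) (hN : ∀ φ : L.Sentence, N ⊨ φ ↔ S₀ ⊨ φ) :
    BIso L M N := by
  have hU : Satd L (H968.Ult S₀) := satd_ult S₀
  have hNe : Nonempty (H968.Ult S₀) := ⟨H968.cls fun _ => Classical.arbitrary _⟩
  have hS : SameT (L := L) (default : Fin 0 → S₀) (default : Fin 0 → H968.Ult S₀) :=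
    (sameT_diag (L := L) S₀ (default : Fin 0 → _)).of_eq id
      (Subsingleton.elim _ _) (Subsingleton.elim _ _)
  have hfin' : ∀ φ : L.Formula (Fin 0 ⊕ Unit), Bd (default : Fin 0 → H968.Ult S₀) φ →
      {x : H968.Ult S₀ | φ.Realize (Sum.elim default fun _ => x)}.Finite := fun φ hφ =>
    fin_transfer hS φ (hfin φ (hφ.transfer hS.symm))
  exact (biso_U hU ((sameT_iff.2 hM).trans hS) hfin').trans
    (biso_U hU ((sameT_iff.2 hN).trans hS) hfin').symm

/-- Each element lies in finitely many tuples of each relation. -/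
def LF (L : FirstOrder.Language.{0, 0}) (N : Type) [L.Structure N] : Prop :=
  ∀ (n : ℕ) (R : L.Relations n) (x : N),
    {t : Fin n → N | Structure.RelMap R t ∧ x ∈ range t}.Finite

theorem LF.ball {N : Type} [L.Structure N] (h : LF L N) (p : Fin n → N)
    (F : Finset (Σ l, L.Relations l)) (r : ℕ) (x : N) : {y : N | Near p F r x y}.Finite := by
  induction r with
  | zero => exact (finite_singleton x).subset fun y (hy : x = y) => hy.symm
  | succ r ih =>
    have h1 : {y : N | Near p F (r + 1) x y} ⊆ ⋃ z ∈ {z : N | Near p F r x z}, ({z} ∪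
        ⋃ s ∈ (F : Set (Σ l, L.Relations l)), ⋃ t ∈ {t : Fin s.1 → N |
          Structure.RelMap s.2 t ∧ z ∈ range t}, range t) := by
      rintro y ⟨z, hz, rfl | ⟨_, _, s, hs, t, ht, hzt, hyt⟩⟩
      · exact mem_iUnion₂.2 ⟨z, hz, Or.inl rfl⟩
      · exact mem_iUnion₂.2 ⟨z, hz, Or.inr (mem_iUnion₂.2 ⟨s, hs, mem_iUnion₂.2
          ⟨t, ⟨ht, hzt⟩, hyt⟩⟩)⟩
    refine Finite.subset (ih.biUnion fun z _ => (finite_singleton z).union ?_) h1
    refine F.finite_toSet.biUnion fun s _ => (h s.1 s.2 z).biUnion fun t _ => finite_range t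

theorem LF.fin {N : Type} [L.Structure N] (h : LF L N) (p : Fin n → N)
    (φ : L.Formula (Fin n ⊕ Unit)) (hφ : Bd p φ) :
    {x : N | φ.Realize (Sum.elim p fun _ => x)}.Finite := by
  obtain ⟨F, r, C, hC⟩ := hφ
  refine (C.finite_toSet.biUnion fun c _ => h.ball p F r c).subset fun x hx => ?_
  obtain ⟨c, hc, h1⟩ := hC x hx
  exact mem_iUnion₂.2 ⟨c, hc, h1⟩

end Pool.Agent.Hp8VC
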