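import Pool.Agent.Hp8VC.Sat

set_option autoImplicit false

/-!
Distances in the Gaifman graph off finitely many named elements, as formulas; bounded formulas.
-/

namespace Pool.Agent.Hp8VC

open FirstOrder FirstOrder.Language

variable {L : FirstOrder.Language.{0, 0}} {n : ℕ}

/-- Different from the named elements, and in a common tuple of a relation from `F`. -/
def AdjF {M : Type} [L.Structure M] (p : Fin n → M) (F : Finset (Σ l, L.Relations l))
    (x y : M) : Prop :=
  x ∉ Set.range p ∧ y ∉ Set.range p ∧ ∃ s ∈ F, ∃ t : Fin s.1 → M,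
    Structure.RelMap s.2 t ∧ x ∈ Set.range t ∧ y ∈ Set.range t

/-- There is a walk of length at most `r`. -/
def Near {M : Type} [L.Structure M] (p : Fin n → M) (F : Finset (Σ l, L.Relations l)) :
    ℕ → M → M → Prop
  | 0, x, y => x = y
  | r + 1, x, y => ∃ z, Near p F r x z ∧ (z = y ∨ AdjF p F z y)

section
variable {M : Type} [L.Structure M] {p : Fin n → M} {F G : Finset (Σ l, L.Relations l)}

theorem AdjF.symm {x y : M} (h : AdjF p F x y) : AdjF p F y x := by
  obtain ⟨h1, h2, s, hs, t, ht, h3, h4⟩ := h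
  exact ⟨h2, h1, s, hs, t, ht, h4, h3⟩

theorem AdjF.mono (hFG : F ⊆ G) {x y : M} (h : AdjF p F x y) : AdjF p G x y := by
  obtain ⟨h1, h2, s, hs, t, ht, h3, h4⟩ := h
  exact ⟨h1, h2, s, hFG hs, t, ht, h3, h4⟩

theorem Near.refl (r : ℕ) (x : M) : Near p F r x x := by
  induction r with
  | zero => rfl
  | succ r ih => exact ⟨x, ih, Or.inl rfl⟩

theorem Near.mono (hFG : F ⊆ G) {r s : ℕ} (hrs : r ≤ s) {x y : M} (h : Near p F r x y) :
    Near p G s x y := by
  induction s generalizing r y with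
  | zero =>
    obtain rfl : r = 0 := Nat.le_zero.1 hrs
    exact h
  | succ s ih =>
    cases r with
    | zero =>
      obtain rfl : x = y := h
      exact Near.refl _ _
    | succ r =>
      obtain ⟨z, h1, h2⟩ := h
      exact ⟨z, ih (Nat.le_of_succ_le_succ hrs) h1, h2.imp (fun h => h) fun h => h.mono hFG⟩

theorem Near.head {r : ℕ} {x y z : M} (h : x = y ∨ AdjF p F x y) (h' : Near p F r y z) :
    Near p F (r + 1) x z := by
  induction r generalizing z with
  | zero =>
    obtain rfl : y = z := h'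
    exact ⟨x, rfl, h⟩
  | succ r ih =>
    obtain ⟨w, h1, h2⟩ := h'
    exact ⟨w, ih h1, h2⟩

theorem Near.symm {r : ℕ} {x y : M} (h : Near p F r x y) : Near p F r y x := by
  induction r generalizing y with
  | zero => exact Eq.symm h
  | succ r ih =>
    obtain ⟨z, h1, h2⟩ := h
    exact Near.head (h2.imp Eq.symm AdjF.symm) (ih h1)

theorem Near.trans {r s : ℕ} {x y z : M} (h : Near p F r x y) (h' : Near p F s y z) :
    Near p F (r + s) x z := by
  induction s generalizing z with
  | zero =>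
    obtain rfl : y = z := h'
    exact h
  | succ s ih =>
    obtain ⟨w, h1, h2⟩ := h'
    exact ⟨w, ih h1, h2⟩

end

open Classical in
/-- Adjacency as a formula. -/
theorem exists_adjF (n : ℕ) (F : Finset (Σ l, L.Relations l)) :
    ∃ φ : L.Formula (Fin n ⊕ Fin 2), ∀ (M : Type) [L.Structure M] (p : Fin n → M) (v : Fin 2 → M),
      φ.Realize (Sum.elim p v) ↔ AdjF p F (v 0) (v 1) := by
  let out : Fin 2 → L.Formula (Fin n ⊕ Fin 2) := fun j =>
    Formula.iInf fun i : Fin n => (Term.equal (Term.var (Sum.inl i)) (Term.var (Sum.inr j))).not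
  let rl : F → L.Formula (Fin n ⊕ Fin 2) := fun s =>
    Formula.iExs (Fin s.1.1) (
      (s.1.2.formula fun k => Term.var (Sum.inr k)) ⊓
      (Formula.iSup fun k : Fin s.1.1 =>
        Term.equal (Term.var (Sum.inr k)) (Term.var (Sum.inl (Sum.inr 0)))) ⊓
      (Formula.iSup fun k : Fin s.1.1 =>
        Term.equal (Term.var (Sum.inr k)) (Term.var (Sum.inl (Sum.inr 1)))))
  refine ⟨out 0 ⊓ out 1 ⊓ Formula.iSup rl, fun M _ p v => ?_⟩
  have hout : ∀ j, (out j).Realize (Sum.elim p v) ↔ v j ∉ Set.range p := by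
    intro j
    simp [out, Formula.realize_equal, Formula.realize_not]
  have hrl : ∀ s : F, (rl s).Realize (Sum.elim p v) ↔ ∃ t : Fin s.1.1 → M,
      Structure.RelMap s.1.2 t ∧ v 0 ∈ Set.range t ∧ v 1 ∈ Set.range t := by
    intro s
    simp only [rl, Formula.realize_iExs, Formula.realize_inf, Formula.realize_rel,
      Formula.realize_iSup, Formula.realize_equal, Term.realize_var, Sum.elim_inr, Sum.elim_inl,
      Set.mem_range, and_assoc]
  rw [Formula.realize_inf, Formula.realize_inf, hout, hout, Formula.realize_iSup]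
  simp only [hrl]
  unfold AdjF
  rw [and_assoc]
  refine and_congr Iff.rfl (and_congr Iff.rfl ?_)
  constructor
  · rintro ⟨s, t, h⟩
    exact ⟨s.1, s.2, t, h⟩
  · rintro ⟨s, hs, t, h⟩
    exact ⟨⟨s, hs⟩, t, h⟩

/-- Distances as formulas. -/
theorem exists_near (n : ℕ) (F : Finset (Σ l, L.Relations l)) (r : ℕ) :
    ∃ φ : L.Formula (Fin n ⊕ Fin 2), ∀ (M : Type) [L.Structure M] (p : Fin n → M) (v : Fin 2 → M),
      φ.Realize (Sum.elim p v) ↔ Near p F r (v 0) (v 1) := by
  obtain ⟨α, hα⟩ := exists_adjF (L := L) n F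
  induction r with
  | zero =>
    refine ⟨Term.equal (Term.var (Sum.inr 0)) (Term.var (Sum.inr 1)), fun M _ p v => ?_⟩
    simp only [Formula.realize_equal, Term.realize_var, Sum.elim_inr]
    exact Iff.rfl
  | succ r ih =>
    obtain ⟨φ, hφ⟩ := ih
    let g0 : Fin n ⊕ Fin 2 → (Fin n ⊕ Fin 2) ⊕ Fin 1 := fun x => match x with
      | Sum.inl i => Sum.inl (Sum.inl i)
      | Sum.inr j => if j = 0 then Sum.inl (Sum.inr 0) else Sum.inr 0
    let g1 : Fin n ⊕ Fin 2 → (Fin n ⊕ Fin 2) ⊕ Fin 1 := fun x => match x with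
      | Sum.inl i => Sum.inl (Sum.inl i)
      | Sum.inr j => if j = 0 then Sum.inr 0 else Sum.inl (Sum.inr 1)
    refine ⟨Formula.iExs (Fin 1) (φ.relabel g0 ⊓
      ((Term.equal (Term.var (Sum.inr 0)) (Term.var (Sum.inl (Sum.inr 1)))) ⊔ α.relabel g1)),
      fun M _ p v => ?_⟩
    rw [Formula.realize_iExs]
    have key : ∀ w : Fin 1 → M, (φ.relabel g0 ⊓
      ((Term.equal (Term.var (Sum.inr 0)) (Term.var (Sum.inl (Sum.inr 1)))) ⊔
        α.relabel g1) : L.Formula ((Fin n ⊕ Fin 2) ⊕ Fin 1)).Realize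
          (Sum.elim (Sum.elim p v) w) ↔
        Near p F r (v 0) (w 0) ∧ (w 0 = v 1 ∨ AdjF p F (w 0) (v 1)) := by
      intro w
      rw [Formula.realize_inf, Formula.realize_sup, Formula.realize_relabel,
        Formula.realize_relabel, Formula.realize_equal]
      have e0 : (Sum.elim (Sum.elim p v) w) ∘ g0 = Sum.elim p ![v 0, w 0] := by
        funext x
        rcases x with x | x
        · rfl
        · fin_cases x <;> rfl
      have e1 : (Sum.elim (Sum.elim p v) w) ∘ g1 = Sum.elim p ![w 0, v 1] := by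
        funext x
        rcases x with x | x
        · rfl
        · fin_cases x <;> rfl
      rw [e0, e1, hφ, hα]
      simp
    constructor
    · rintro ⟨w, hw⟩
      exact ⟨w 0, (key w).1 hw⟩
    · rintro ⟨z, hz⟩
      exact ⟨fun _ => z, (key _).2 hz⟩

section
variable {M N : Type} [L.Structure M] [L.Structure N]

/-- Same distances. -/
theorem SameT.near {ι : Type} {p : Fin n → M} {q : Fin n → N} {a : ι → M} {b : ι → N}
    (h : SameT (L := L) (Sum.elim p a) (Sum.elim q b)) (F : Finset (Σ l, L.Relations l)) (r : ℕ)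
    (i j : ι) : Near p F r (a i) (a j) ↔ Near q F r (b i) (b j) := by
  obtain ⟨φ, hφ⟩ := exists_near (L := L) n F r
  have h1 := hφ M p ![a i, a j]
  have h2 := hφ N q ![b i, b j]
  have h3 : SameT (L := L) (Sum.elim p ![a i, a j]) (Sum.elim q ![b i, b j]) := by
    refine h.of_eq (fun x : Fin n ⊕ Fin 2 => match x with
      | Sum.inl k => Sum.inl k
      | Sum.inr k => if k = 0 then Sum.inr i else Sum.inr j) ?_ ?_
    · funext x
      rcases x with x | x
      · rfl
      · fin_cases x <;> rfl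
    · funext x
      rcases x with x | x
      · rfl
      · fin_cases x <;> rfl
  exact h1.symm.trans ((h3 φ).trans h2)

end

/-- The formula `φ` defines a set that is covered by finitely many balls. -/
def Bd {M : Type} [L.Structure M] (p : Fin n → M) (φ : L.Formula (Fin n ⊕ Unit)) : Prop :=
  ∃ (F : Finset (Σ l, L.Relations l)) (r : ℕ) (C : Finset M), ∀ x : M,
    φ.Realize (Sum.elim p fun _ => x) → ∃ c ∈ C, Near p F r c x

/-- The formula which says that `φ` is covered by the balls around the given points. -/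
theorem exists_cov (φ : L.Formula (Fin n ⊕ Unit)) (F : Finset (Σ l, L.Relations l)) (r k : ℕ) :
    ∃ χ : L.Formula (Fin n ⊕ Fin k), ∀ (M : Type) [L.Structure M] (p : Fin n → M) (c : Fin k → M),
      χ.Realize (Sum.elim p c) ↔
        ∀ x : M, φ.Realize (Sum.elim p fun _ => x) → ∃ i, Near p F r (c i) x := by
  obtain ⟨ν, hν⟩ := exists_near (L := L) n F r
  let g : Fin k → Fin n ⊕ Fin 2 → (Fin n ⊕ Fin k) ⊕ Unit := fun i x => match x with
    | Sum.inl j => Sum.inl (Sum.inl j)
    | Sum.inr j => if j = 0 then Sum.inl (Sum.inr i) else Sum.inr ()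
  let g' : Fin n ⊕ Unit → (Fin n ⊕ Fin k) ⊕ Unit := Sum.map Sum.inl id
  refine ⟨Formula.iAlls Unit ((φ.relabel g').imp (Formula.iSup fun i => ν.relabel (g i))),
    fun M _ p c => ?_⟩
  rw [Formula.realize_iAlls]
  have key : ∀ x : Unit → M, ((φ.relabel g').imp (Formula.iSup fun i => ν.relabel (g i)) :
      L.Formula ((Fin n ⊕ Fin k) ⊕ Unit)).Realize (fun a => Sum.elim (Sum.elim p c) x a) ↔
      (φ.Realize (Sum.elim p fun _ => x ()) → ∃ i, Near p F r (c i) (x ())) := by
    intro x
    rw [Formula.realize_imp, Formula.realize_relabel, Formula.realize_iSup]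
    have e1 : (fun a => Sum.elim (Sum.elim p c) x a) ∘ g' = Sum.elim p fun _ => x () := by
      funext y
      rcases y with y | y <;> rfl
    have e2 : ∀ i, (fun a => Sum.elim (Sum.elim p c) x a) ∘ g i = Sum.elim p ![c i, x ()] := by
      intro i
      funext y
      rcases y with y | y
      · rfl
      · fin_cases y <;> rfl
    simp only [Formula.realize_relabel, e1, e2, hν]
    simp
  constructor
  · intro h x
    exact (key fun _ => x).1 (h _)
  · intro h x
    exact (key x).2 (h _)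

section
variable {M N : Type} [L.Structure M] [L.Structure N]

theorem Bd.transfer [Nonempty N] {p : Fin n → M} {q : Fin n → N} (h : SameT (L := L) p q)
    {φ : L.Formula (Fin n ⊕ Unit)} (hb : Bd p φ) : Bd q φ := by
  classical
  obtain ⟨F, r, C, hC⟩ := hb
  obtain ⟨χ, hχ⟩ := exists_cov φ F r C.card
  obtain ⟨ψ, hψ⟩ := exq χ
  obtain ⟨e⟩ : Nonempty (Fin C.card ≃ C) := ⟨C.equivFin.symm⟩
  have hM : ψ.Realize p ↔ ∃ w : Fin C.card → M, χ.Realize (Sum.elim p w) := by
    by_cases hne : Nonempty M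
    · exact hψ M p
    · exfalso
      -- the structure `M` is empty but `N` is not
      rw [not_nonempty_iff] at hne
      obtain ⟨δ, hδ⟩ := exq (L := L) (ι := Fin n) (κ := Unit)
        (Term.equal (Term.var (Sum.inr ())) (Term.var (Sum.inr ())))
      have hn : n = 0 := by
        by_contra hn
        exact hne.false (p ⟨0, Nat.pos_of_ne_zero hn⟩)
      subst hn
      have h1 : (Formula.iExs Unit (Term.equal (Term.var (Sum.inr ())) (Term.var (Sum.inr ())) :
          L.Formula (Fin 0 ⊕ Unit))).Realize q := by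
        rw [Formula.realize_iExs]
        exact ⟨fun _ => Classical.arbitrary N, by simp [Formula.realize_equal]⟩
      have h2 := (h _).2 h1
      rw [Formula.realize_iExs] at h2
      obtain ⟨i, _⟩ := h2
      exact hne.false (i ())
  have h1 : ψ.Realize p := hM.2 ⟨fun i => (e i).1, (hχ M p _).2 fun x hx => by
    obtain ⟨c, hc, h⟩ := hC x hx
    exact ⟨e.symm ⟨c, hc⟩, by simpa using h⟩⟩
  obtain ⟨w, hw⟩ := (hψ N q).1 ((h ψ).1 h1)
  refine ⟨F, r, Finset.univ.image w, fun x hx => ?_⟩
  obtain ⟨i, hi⟩ := (hχ N q w).1 hw x hx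
  exact ⟨w i, Finset.mem_image_of_mem _ (Finset.mem_univ _), hi⟩

/-- A point that satisfies a bounded formula. -/
def Base (L : FirstOrder.Language.{0, 0}) {M : Type} [L.Structure M] (p : Fin n → M) (x : M) :
    Prop :=
  ∃ φ : L.Formula (Fin n ⊕ Unit), φ.Realize (Sum.elim p fun _ => x) ∧ Bd p φ

/-- Finite distance. -/
def Ec (L : FirstOrder.Language.{0, 0}) {M : Type} [L.Structure M] (p : Fin n → M) (x y : M) :
    Prop :=
  ∃ (F : Finset (Σ l, L.Relations l)) (r : ℕ), Near p F r x y

theorem Ec.refl (p : Fin n → M) (x : M) : Ec L p x x := ⟨∅, 0, rfl⟩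

theorem Ec.symm {p : Fin n → M} {x y : M} (h : Ec L p x y) : Ec L p y x := by
  obtain ⟨F, r, h⟩ := h
  exact ⟨F, r, h.symm⟩

theorem Ec.trans {p : Fin n → M} {x y z : M} (h : Ec L p x y) (h' : Ec L p y z) : Ec L p x z := by
  classical
  obtain ⟨F, r, h⟩ := h
  obtain ⟨G, s, h'⟩ := h'
  exact ⟨F ∪ G, r + s, (h.mono Finset.subset_union_left le_rfl).trans
    (h'.mono Finset.subset_union_right le_rfl)⟩

theorem SameT.ec {ι : Type} {p : Fin n → M} {q : Fin n → N} {a : ι → M} {b : ι → N}
    (h : SameT (L := L) (Sum.elim p a) (Sum.elim q b)) (i j : ι) :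
    Ec L p (a i) (a j) ↔ Ec L q (b i) (b j) :=
  exists_congr fun F => exists_congr fun r => h.near F r i j

theorem SameT.left {ι : Type} {p : Fin n → M} {q : Fin n → N} {a : ι → M} {b : ι → N}
    (h : SameT (L := L) (Sum.elim p a) (Sum.elim q b)) : SameT (L := L) p q :=
  h.of_eq Sum.inl rfl rfl

theorem SameT.single {ι : Type} {p : Fin n → M} {q : Fin n → N} {a : ι → M} {b : ι → N}
    (h : SameT (L := L) (Sum.elim p a) (Sum.elim q b)) (i : ι) :
    SameT (L := L) (Sum.elim p fun _ : Unit => a i) (Sum.elim q fun _ : Unit => b i) := by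
  refine h.of_eq (Sum.map id fun _ => i) ?_ ?_
  · funext x
    rcases x with x | x <;> rfl
  · funext x
    rcases x with x | x <;> rfl

theorem SameT.base {ι : Type} {p : Fin n → M} {q : Fin n → N} {a : ι → M} {b : ι → N}
    (h : SameT (L := L) (Sum.elim p a) (Sum.elim q b)) (i : ι) :
    Base L p (a i) ↔ Base L q (b i) := by
  have hM : Nonempty M := ⟨a i⟩
  have hN : Nonempty N := ⟨b i⟩
  constructor
  · rintro ⟨φ, h1, h2⟩
    exact ⟨φ, (h.single i φ).1 h1, h2.transfer h.left⟩
  · rintro ⟨φ, h1, h2⟩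
    exact ⟨φ, (h.single i φ).2 h1, h2.transfer h.left.symm⟩

/-- The union of the balls around the points with `φ`. -/
theorem exists_fat (φ : L.Formula (Fin n ⊕ Unit)) (F : Finset (Σ l, L.Relations l)) (r : ℕ) :
    ∃ χ : L.Formula (Fin n ⊕ Unit), ∀ (M : Type) [L.Structure M] (p : Fin n → M) (x : M),
      χ.Realize (Sum.elim p fun _ => x) ↔
        ∃ y, φ.Realize (Sum.elim p fun _ => y) ∧ Near p F r y x := by
  obtain ⟨ν, hν⟩ := exists_near (L := L) n F r
  let g : Fin n ⊕ Fin 2 → (Fin n ⊕ Unit) ⊕ Unit := fun x => match x with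
    | Sum.inl j => Sum.inl (Sum.inl j)
    | Sum.inr j => if j = 0 then Sum.inr () else Sum.inl (Sum.inr ())
  let g' : Fin n ⊕ Unit → (Fin n ⊕ Unit) ⊕ Unit := Sum.map Sum.inl id
  refine ⟨Formula.iExs Unit (φ.relabel g' ⊓ ν.relabel g), fun M _ p x => ?_⟩
  rw [Formula.realize_iExs]
  have key : ∀ y : Unit → M, ((φ.relabel g' ⊓ ν.relabel g :
      L.Formula ((Fin n ⊕ Unit) ⊕ Unit))).Realize (Sum.elim (Sum.elim p fun _ => x) y) ↔
      (φ.Realize (Sum.elim p fun _ => y ()) ∧ Near p F r (y ()) x) := by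
    intro y
    rw [Formula.realize_inf, Formula.realize_relabel, Formula.realize_relabel]
    have e1 : (Sum.elim (Sum.elim p fun _ => x) y) ∘ g' = Sum.elim p fun _ => y () := by
      funext z
      rcases z with z | z <;> rfl
    have e2 : (Sum.elim (Sum.elim p fun _ => x) y) ∘ g = Sum.elim p ![y (), x] := by
      funext z
      rcases z with z | z
      · rfl
      · fin_cases z <;> rfl
    rw [e1, e2, hν]
    simp
  constructor
  · rintro ⟨y, hy⟩
    exact ⟨y (), (key y).1 hy⟩
  · rintro ⟨y, hy⟩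
    exact ⟨fun _ => y, (key _).2 hy⟩

theorem Base.of_ec {p : Fin n → M} {x y : M} (h : Base L p x) (h' : Ec L p x y) : Base L p y := by
  classical
  obtain ⟨φ, h1, G, s, C, hC⟩ := h
  obtain ⟨F, r, h'⟩ := h'
  obtain ⟨χ, hχ⟩ := exists_fat φ F r
  refine ⟨χ, (hχ M p y).2 ⟨x, h1, h'⟩, G ∪ F, s + r, C, fun z hz => ?_⟩
  obtain ⟨w, hw, hwz⟩ := (hχ M p z).1 hz
  obtain ⟨c, hc, hcw⟩ := hC w hw
  exact ⟨c, hc, (hcw.mono Finset.subset_union_left le_rfl).trans
    (hwz.mono Finset.subset_union_right le_rfl)⟩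

theorem base_par (p : Fin n → M) (i : Fin n) : Base L p (p i) := by
  refine ⟨Term.equal (Term.var (Sum.inl i)) (Term.var (Sum.inr ())), ?_, ∅, 0, {p i},
    fun x hx => ⟨p i, Finset.mem_singleton_self _, ?_⟩⟩
  · simp [Formula.realize_equal]
  · exact (by simpa [Formula.realize_equal] using hx : p i = x)

/-- In the same block: in the same component, or both in the bounded part. -/
def Wb (L : FirstOrder.Language.{0, 0}) {M : Type} [L.Structure M] (p : Fin n → M) (x y : M) :
    Prop :=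
  Ec L p x y ∨ (Base L p x ∧ Base L p y)

theorem Wb.refl (p : Fin n → M) (x : M) : Wb L p x x := Or.inl (Ec.refl p x)

theorem Wb.symm {p : Fin n → M} {x y : M} (h : Wb L p x y) : Wb L p y x :=
  h.imp Ec.symm And.symm

theorem Wb.trans {p : Fin n → M} {x y z : M} (h : Wb L p x y) (h' : Wb L p y z) :
    Wb L p x z := by
  rcases h with h | h
  · rcases h' with h' | h'
    · exact Or.inl (h.trans h')
    · exact Or.inr ⟨h'.1.of_ec h.symm, h'.2⟩
  · rcases h' with h' | h'
    · exact Or.inr ⟨h.1, h.2.of_ec h'⟩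
    · exact Or.inr ⟨h.1, h'.2⟩

theorem SameT.wb {ι : Type} {p : Fin n → M} {q : Fin n → N} {a : ι → M} {b : ι → N}
    (h : SameT (L := L) (Sum.elim p a) (Sum.elim q b)) (i j : ι) :
    Wb L p (a i) (a j) ↔ Wb L q (b i) (b j) :=
  or_congr (h.ec i j) (and_congr (h.base i) (h.base j))

theorem Wb.base_iff {p : Fin n → M} {x y : M} (h : Wb L p x y) : Base L p x ↔ Base L p y := by
  rcases h with h | h
  · exact ⟨fun h' => h'.of_ec h, fun h' => h'.of_ec h.symm⟩
  · exact ⟨fun _ => h.2, fun _ => h.1⟩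

end

end Pool.Agent.Hp8VC
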