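import Pool.Agent.Hp8VC.Crit

set_option autoImplicit false

/-!
Surgery: the bounded part of a model together with infinitely many copies of the rest of another
model is a model.
-/

namespace Pool.Agent.Hp8VC

open FirstOrder FirstOrder.Language

variable {L : FirstOrder.Language.{0, 0}} {n : ℕ}

/-- Dependent choice along a countable index set. -/
theorem dep_fam {I : Type} [Countable I] {X : Type} [Nonempty X] (Q : I → X → Prop)
    (R : I → I → X → X → Prop)
    (hs : ∀ i j x y, R i j x y → R j i y x)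
    (step : ∀ i (prev : I → X), ∃ x, Q i x ∧ ∀ j, R j i (prev j) x) :
    ∃ g : I → X, (∀ i, Q i (g i)) ∧ ∀ i j, i ≠ j → R i j (g i) (g j) := by
  classical
  obtain ⟨enc, henc⟩ := exists_injective_nat I
  choose G hG1 hG2 using step
  have x₀ : X := Classical.arbitrary X
  let wf : WellFounded (fun i j : I => enc i < enc j) := (measure enc).wf
  let g : I → X := wf.fix (C := fun _ => X) (fun i prev =>
    G i (fun j => if h : enc j < enc i then prev j h else x₀))
  have hg : ∀ i, g i = G i (fun j => if enc j < enc i then g j else x₀) := by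
    intro i
    have := wf.fix_eq (C := fun _ => X) (fun i prev =>
      G i (fun j => if h : enc j < enc i then prev j h else x₀)) i
    exact this
  have key : ∀ i j, enc j < enc i → R j i (g j) (g i) := by
    intro i j hij
    have h1 := hG2 i (fun j => if enc j < enc i then g j else x₀) j
    rw [if_pos hij, ← hg i] at h1
    exact h1
  refine ⟨g, fun i => ?_, fun i j hij => ?_⟩
  · rw [hg i]
    exact hG1 _ _
  · rcases lt_trichotomy (enc i) (enc j) with h | h | h
    · exact key j i h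
    · exact (hij (henc h)).elim
    · exact hs _ _ _ _ (key i j h)

theorem Bd.mono {M : Type} [L.Structure M] {p : Fin n → M} {φ ψ : L.Formula (Fin n ⊕ Unit)}
    (h : ∀ x, φ.Realize (Sum.elim p fun _ => x) → ψ.Realize (Sum.elim p fun _ => x))
    (hψ : Bd p ψ) : Bd p φ := by
  obtain ⟨F, r, C, hC⟩ := hψ
  exact ⟨F, r, C, fun x hx => hC x (h x hx)⟩

theorem Bd.sup {M : Type} [L.Structure M] {p : Fin n → M} {φ ψ : L.Formula (Fin n ⊕ Unit)}
    (hφ : Bd p φ) (hψ : Bd p ψ) : Bd p (φ ⊔ ψ) := by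
  classical
  obtain ⟨F, r, C, hC⟩ := hφ
  obtain ⟨G, s, D, hD⟩ := hψ
  refine ⟨F ∪ G, max r s, C ∪ D, fun x hx => ?_⟩
  rcases Formula.realize_sup.1 hx with h | h
  · obtain ⟨c, hc, h⟩ := hC x h
    exact ⟨c, Finset.mem_union_left _ hc, h.mono Finset.subset_union_left (le_max_left _ _)⟩
  · obtain ⟨c, hc, h⟩ := hD x h
    exact ⟨c, Finset.mem_union_right _ hc, h.mono Finset.subset_union_right (le_max_right _ _)⟩

/-- A bounded formula which contains the balls around finitely many points of the bounded part. -/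
theorem bd_balls {M : Type} [L.Structure M] (p : Fin n → M) (F : Finset (Σ l, L.Relations l))
    (r : ℕ) (C : Finset M) : ∃ β : L.Formula (Fin n ⊕ Unit), Bd p β ∧
      ∀ c ∈ C, Base L p c → ∀ y, Near p F r c y → β.Realize (Sum.elim p fun _ => y) := by
  classical
  induction C using Finset.induction_on with
  | empty =>
    refine ⟨⊥, ⟨∅, 0, ∅, fun x hx => ?_⟩, fun c hc => absurd hc (Finset.notMem_empty c)⟩
    simp [Formula.Realize] at hx
  | insert c C _ ih =>
    obtain ⟨β, hβ, hβ2⟩ := ih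
    by_cases hc : Base L p c
    · obtain ⟨φ, h1, G, s, D, hD⟩ := hc
      obtain ⟨χ, hχ⟩ := exists_fat φ F r
      refine ⟨β ⊔ χ, hβ.sup ⟨G ∪ F, s + r, D, fun z hz => ?_⟩, fun d hd hdB y hy => ?_⟩
      · obtain ⟨w, hw, hwz⟩ := (hχ M p z).1 hz
        obtain ⟨c, hc, hcw⟩ := hD w hw
        exact ⟨c, hc, (hcw.mono Finset.subset_union_left le_rfl).trans
          (hwz.mono Finset.subset_union_right le_rfl)⟩
      · rw [Formula.realize_sup]
        rcases Finset.mem_insert.1 hd with rfl | hd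
        · exact Or.inr ((hχ M p y).2 ⟨d, h1, hy⟩)
        · exact Or.inl (hβ2 d hd hdB y hy)
    · refine ⟨β, hβ, fun d hd hdB y hy => ?_⟩
      rcases Finset.mem_insert.1 hd with rfl | hd
      · exact (hc hdB).elim
      · exact hβ2 d hd hdB y hy

/-- The components of the part outside the bounded part. -/
def ecSetoid (L : FirstOrder.Language.{0, 0}) {N : Type} [L.Structure N] (pN : Fin n → N) :
    Setoid N := ⟨Ec L pN, fun x => Ec.refl pN x, Ec.symm, Ec.trans⟩

section
variable {U : Type} [L.Structure U] [Nonempty U] [Countable L.Symbols]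
  {N : Type} [L.Structure N] [Countable N]

theorem far_comp (hU : Satd L U) {pN : Fin n → N} {pU : Fin n → U} (h : SameT (L := L) pN pU)
    (x : N) (hx : ¬ Base L pN x) {ι : Type} [Countable ι] (a : ι → U) :
    ∃ g : N → U, SameT (L := L) (Sum.elim pN (id : N → N)) (Sum.elim pU g) ∧
      ∀ i z, Ec L pN x z → ¬ Ec L pU (a i) (g z) := by
  have hN : Nonempty N := ⟨x⟩
  obtain ⟨b, hb, hb2⟩ := far_point hU h x hx a
  obtain ⟨g, hg⟩ := ext_tuple hU hb (id : N → N)
  refine ⟨g, hg.of_eq (Sum.map Sum.inl id) ?_ ?_, fun i z hz hi => ?_⟩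
  · funext z
    rcases z with z | z <;> rfl
  · funext z
    rcases z with z | z <;> rfl
  · have h1 : SameT (L := L) (Sum.elim pN (Sum.elim (fun _ : Unit => x) id))
        (Sum.elim pU (Sum.elim (fun _ : Unit => b) g)) := by
      refine hg.of_eq (fun z => match z with
        | Sum.inl j => Sum.inl (Sum.inl j)
        | Sum.inr (Sum.inl j) => Sum.inl (Sum.inr j)
        | Sum.inr (Sum.inr j) => Sum.inr j) ?_ ?_ <;>
      · funext z
        rcases z with z | z | z <;> rfl
    have h2 : Ec L pU b (g z) := (h1.ec (Sum.inl ()) (Sum.inr z)).1 hz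
    exact hb2 i (hi.trans h2.symm)

/-- Infinitely many copies of the part outside the bounded part. -/
theorem far_copies (hU : Satd L U) {pN : Fin n → N} {pU : Fin n → U}
    (h : SameT (L := L) pN pU) :
    ∃ G : ℕ → N → U,
      (∀ k z, ∃ g : N → U, SameT (L := L) (Sum.elim pN (id : N → N)) (Sum.elim pU g) ∧
        ∀ w, Ec L pN z w → G k w = g w) ∧
      ∀ k k' z z', ¬ Base L pN z → Ec L pU (G k z) (G k' z') → k = k' ∧ Ec L pN z z' := by
  classical
  let Q := Quotient (ecSetoid L pN)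
  rcases isEmpty_or_nonempty N with hN | hN
  · exact ⟨fun _ _ => Classical.arbitrary U, fun _ z => (hN.false z).elim,
      fun _ _ z => (hN.false z).elim⟩
  have hQ : Countable Q := Quotient.countable
  have hout : ∀ z : N, Ec L pN (Quotient.mk (ecSetoid L pN) z).out z := fun z =>
    (Quotient.eq (r := ecSetoid L pN)).1 (Quotient.out_eq (Quotient.mk (ecSetoid L pN) z))
  obtain ⟨g, hg1, hg2⟩ := dep_fam (I := ℕ × Q) (X := N → U)
    (fun _ g => SameT (L := L) (Sum.elim pN (id : N → N)) (Sum.elim pU g))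
    (fun i j g g' => ¬ Base L pN i.2.out → ¬ Base L pN j.2.out → ∀ z z', Ec L pN i.2.out z →
      Ec L pN j.2.out z' → ¬ Ec L pU (g z) (g' z'))
    (fun i j g g' h1 h2 h3 z z' hz hz' h4 => h1 h3 h2 z' z hz' hz h4.symm)
    (by
      intro i prev
      by_cases hi : Base L pN i.2.out
      · obtain ⟨g, hg⟩ := ext_tuple hU h (id : N → N)
        exact ⟨g, hg, fun j _ h2 => (h2 hi).elim⟩
      · obtain ⟨g, h1, h2⟩ := far_comp hU h i.2.out hi (fun q : (ℕ × Q) × N => prev q.1 q.2)
        exact ⟨g, h1, fun j _ _ z z' _ hz' h3 => h2 (j, z) z' hz' h3⟩)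
  have hbase : ∀ k z, Base L pN z ↔ Base L pU (g (k, Quotient.mk (ecSetoid L pN) z) z) :=
    fun k z => (hg1 (k, Quotient.mk (ecSetoid L pN) z)).base z
  refine ⟨fun k z => g (k, Quotient.mk (ecSetoid L pN) z) z, fun k z =>
    ⟨g (k, Quotient.mk (ecSetoid L pN) z), hg1 _, fun w hw => ?_⟩, fun k k' z z' hz hE => ?_⟩
  · have e : Quotient.mk (ecSetoid L pN) w = Quotient.mk (ecSetoid L pN) z :=
      Quotient.sound (Ec.symm hw)
    simp only [e]
  · have hz' : ¬ Base L pN z' := fun h1 => hz ((hbase k z).2 (((hbase k' z').1 h1).of_ec hE.symm))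
    have ho : ∀ z, ¬ Base L pN z → ¬ Base L pN (Quotient.mk (ecSetoid L pN) z).out :=
      fun z hz h1 => hz (h1.of_ec (hout z))
    by_cases hne : ((k, Quotient.mk (ecSetoid L pN) z) : ℕ × Q) =
        (k', Quotient.mk (ecSetoid L pN) z')
    · exact ⟨(Prod.ext_iff.1 hne).1, (Quotient.eq (r := ecSetoid L pN)).1 (Prod.ext_iff.1 hne).2⟩
    · exact (hg2 _ _ hne (ho z hz) (ho z' hz') z z' (hout z) (hout z') hE).elim

omit [Countable N] in
/-- The surgery. -/
theorem surg [L.IsRelational] (hU : Satd L U) {M : Type} [L.Structure M] [Nonempty M]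
    {pM : Fin n → M} {pN : Fin n → N} {pU : Fin n → U} (hMU : SameT (L := L) pM pU)
    (hNU : SameT (L := L) pN pU) (f : M → U)
    (hf : SameT (L := L) (Sum.elim pM (id : M → M)) (Sum.elim pU f)) (G : ℕ → N → U)
    (hG1 : ∀ k z, ∃ g : N → U, SameT (L := L) (Sum.elim pN (id : N → N)) (Sum.elim pU g) ∧
        ∀ w, Ec L pN z w → G k w = g w)
    (hG2 : ∀ k k' z z', ¬ Base L pN z → Ec L pU (G k z) (G k' z') → k = k' ∧ Ec L pN z z') :
    Elem L ({u | ∃ x, Base L pM x ∧ f x = u} ∪ {u | ∃ k z, ¬ Base L pN z ∧ G k z = u}) := by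
  classical
  have hpar : ∀ {K : Type} [L.Structure K] {pK : Fin n → K} {g : K → U},
      SameT (L := L) (Sum.elim pK (id : K → K)) (Sum.elim pU g) → ∀ i, pU i = g (pK i) := by
    intro K _ pK g hg i
    exact (hg.eq_iff (Sum.inl i) (Sum.inr (pK i))).1 rfl
  have hid : ∀ {K : Type} [L.Structure K] {pK : Fin n → K} {g : K → U},
      SameT (L := L) (Sum.elim pK (id : K → K)) (Sum.elim pU g) →
      SameT (L := L) (id : K → K) g := fun hg => hg.comp Sum.inr
  have hfb : ∀ x, Base L pM x ↔ Base L pU (f x) := fun x => hf.base x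
  have hGb : ∀ k z, Base L pN z ↔ Base L pU (G k z) := by
    intro k z
    obtain ⟨g, hg, hg2⟩ := hG1 k z
    rw [hg2 z (Ec.refl _ _)]
    exact hg.base z
  refine crit hU pU _ ?_ ?_ ?_
  · refine ⟨Set.range f, Elem.of_sameT f (hid hf), fun i => ⟨pM i, (hpar hf i).symm⟩,
      fun y hy => ⟨?_, ?_⟩⟩
    · rintro (⟨x, _, rfl⟩ | ⟨k, z, hz, rfl⟩)
      · exact ⟨x, rfl⟩
      · exact (hz ((hGb k z).2 hy)).elim
    · rintro ⟨x, rfl⟩
      exact Or.inl ⟨x, (hfb x).2 hy, rfl⟩
  · rintro x (⟨x, hx, rfl⟩ | ⟨k, z, hz, rfl⟩) hb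
    · exact (hb ((hfb x).1 hx)).elim
    · obtain ⟨g, hg, hg2⟩ := hG1 k z
      have hNe : Nonempty N := ⟨z⟩
      refine ⟨Set.range g, Elem.of_sameT g (hid hg), fun i => ⟨pN i, (hpar hg i).symm⟩,
        fun y hy => ⟨?_, ?_⟩⟩
      · rintro (⟨x, hx, rfl⟩ | ⟨k', z', hz', rfl⟩)
        · exact (hb (((hfb x).1 hx).of_ec hy.symm)).elim
        · obtain ⟨rfl, h1⟩ := hG2 k k' z z' hz hy
          exact ⟨z', (hg2 z' h1).symm⟩
      · rintro ⟨w, rfl⟩
        have h1 : Ec L pU (g z) (g w) := by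
          rw [← hg2 z (Ec.refl _ _)]
          exact hy
        have h2 : Ec L pN z w := (hg.ec z w).2 h1
        refine Or.inr ⟨k, w, fun h3 => hz (h3.of_ec h2.symm), hg2 w h2⟩
  · intro ψ hψ F r C
    by_cases hA : ∃ x : N, ¬ Base L pN x ∧ ψ.Realize (Sum.elim pN fun _ => x)
    · obtain ⟨x, hx, hxψ⟩ := hA
      by_contra hcon
      push Not at hcon
      have h1 : ∀ k, ψ.Realize (Sum.elim pU fun _ => G k x) := by
        intro k
        obtain ⟨g, hg, hg2⟩ := hG1 k x
        rw [hg2 x (Ec.refl _ _)]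
        exact (hg.single x ψ).1 hxψ
      choose c hc hc2 using fun k => hcon (G k x) (Or.inr ⟨k, x, hx, rfl⟩) (h1 k)
      obtain ⟨k, k', hne, he⟩ := Finite.exists_ne_map_eq_of_infinite
        (fun k => (⟨c k, hc k⟩ : C))
      have he' : c k = c k' := congrArg Subtype.val he
      have h2 : Ec L pU (G k x) (G k' x) := by
        have h3 : Ec L pU (c k) (G k x) := ⟨F, r, hc2 k⟩
        have h4 : Ec L pU (c k') (G k' x) := ⟨F, r, hc2 k'⟩
        rw [he'] at h3
        exact h3.symm.trans h4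
      exact hne (hG2 k k' x x hx h2).1
    · push Not at hA
      obtain ⟨β₀, hβ₀, hβ₀C⟩ := bd_balls pU F r C
      have key : ∃ y : M, Base L pM y ∧ ψ.Realize (Sum.elim pM fun _ => y) ∧
          ¬ β₀.Realize (Sum.elim pM fun _ => y) := by
        by_contra hcon
        push Not at hcon
        have h1 : ¬ Bd pU (ψ ⊓ β₀.not) := by
          intro h2
          refine hψ ((h2.sup hβ₀).mono fun x hx => ?_)
          rw [Formula.realize_sup, Formula.realize_inf, Formula.realize_not]
          by_cases h3 : β₀.Realize (Sum.elim pU fun _ => x)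
          · exact Or.inr h3
          · exact Or.inl ⟨hx, h3⟩
        have h2 : ¬ Bd pN (ψ ⊓ β₀.not) := fun h3 => h1 (h3.transfer hNU)
        have h3 : ∃ x : N, (ψ ⊓ β₀.not).Realize (Sum.elim pN fun _ => x) := by
          by_contra h4
          push Not at h4
          exact h2 ⟨∅, 0, ∅, fun x hx => (h4 x hx).elim⟩
        obtain ⟨x, hx⟩ := h3
        have hNe : Nonempty N := ⟨x⟩
        rw [Formula.realize_inf] at hx
        have hxB : Base L pN x := by
          by_contra h4
          exact hA x h4 hx.1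
        obtain ⟨β, hβx, hβ⟩ := hxB
        obtain ⟨χ, hχ⟩ := exq (L := L) (ι := Fin n) (κ := Unit) (β ⊓ (ψ ⊓ β₀.not))
        have h5 : χ.Realize pM := by
          refine (hMU χ).2 ((hNU χ).1 ((hχ N pN).2 ⟨fun _ => x, ?_⟩))
          rw [Formula.realize_inf, Formula.realize_inf]
          exact ⟨hβx, hx⟩
        obtain ⟨w, hw⟩ := (hχ M pM).1 h5
        have hw' : (β ⊓ (ψ ⊓ β₀.not)).Realize (Sum.elim pM fun _ : Unit => w ()) := hw
        rw [Formula.realize_inf, Formula.realize_inf, Formula.realize_not] at hw'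
        have hBw : Base L pM (w ()) :=
          ⟨β, hw'.1, (hβ.transfer hNU).transfer hMU.symm⟩
        exact hw'.2.2 (hcon (w ()) hBw hw'.2.1)
      obtain ⟨y, hyB, hyψ, hyβ⟩ := key
      refine ⟨f y, Or.inl ⟨y, hyB, rfl⟩, (hf.single y ψ).1 hyψ, fun c hc hN => ?_⟩
      have h1 : Base L pU c := ((hfb y).1 hyB).of_ec (⟨F, r, hN.symm⟩)
      exact hyβ ((hf.single y β₀).2 (hβ₀C c hc h1 _ hN))

end

end Pool.Agent.Hp8VC
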